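import Pool.Agent.K3h54.PC.Stm
import Pool.Agent.W342.PW2
import Pool.Agent.W139.PX.E2

/-!
# Clusters of almost prime palindromes which differ only in the middle digits: the statements of the parts
-/

set_option autoImplicit false
set_option linter.unusedSectionVars false

namespace Pool.Agent.K3h54.PM

open Finset Filter
open Pool.Agent.W89.PW (ps fr m4 Eset HH)
open Pool.Agent.H39R3.PB (pts)
open Pool.Agent.H39R3.PS (EM)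
open Pool.Agent.W139.PX (SS)
open Pool.Agent.K3h54.PC (StMTW)

/-- the product over the digits `g ≤ c < J` -/
noncomputable def FG (b s t g L J : ℕ) (α : ℝ) : ℝ :=
  ∏ c ∈ (range J).filter (fun c => g ≤ c), ps s t (fr b L c * α)

/-- the palindrome with `2 L + 3` digits whose `2 g + 1` middle digits are `0` -/
def pvG (b s t g L : ℕ) (m : Fin L → Fin s × Fin t) : ℕ :=
  b ^ (2 * L + 2) + 1 + ∑ c ∈ (univ : Finset (Fin L)).filter (fun c : Fin L => g ≤ (c : ℕ)),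
    (((m c).1 : ℕ) + ((m c).2 : ℕ)) * fr b L c

/-- the part of the `2 g + 1` middle digits `y_g … y_1 y_0 y_1 … y_g` -/
def hy (b g L y : ℕ) : ℕ :=
  (y % b) * b ^ (L + 1) + ∑ c ∈ range g, (y / b ^ (c + 1) % b) * fr b L c

/-- the reduced part at the denominator `q` -/
noncomputable def UG (b s t g L q : ℕ) : ℝ :=
  ∑ a ∈ (range q).filter (fun a => a.Coprime q), FG b s t g L L ((a : ℝ) / q)

/-- the error term -/
noncomputable def erG (b s t g L q : ℕ) : ℝ :=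
  ((s : ℝ) * t) ^ L / q * ∑ d ∈ q.divisors.filter (fun d => 1 < d), UG b s t g L d

/-- pointwise bound -/
def PtG (b s t g : ℕ) : Prop := ∃ κ : ℝ, 0 < κ ∧ κ < 1 ∧ ∀ q h a L : ℕ, 1 < q → q.Coprime (2 * b) →
    a.Coprime q → q < b ^ h → FG b s t g L L ((a : ℝ) / q) ≤ (1 - κ) ^ ((L - g) / (2 * h + 2))

/-- majorisation of the products over all positions `≥ g` outside a block (`W139.PX.MajP` is the case `g = 0`) -/
def MajG (b s t g : ℕ) (H CM : ℝ) : Prop := ∀ (L J K i : ℕ) (T : ℝ), 1 ≤ K →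
  (∀ n : ℕ, 1 ≤ n → n ≤ b ^ (2 * L + 3) → (n.divisors.card : ℝ) ≤ T) →
  (∀ Q : ℕ, pts b Q (fun α => ∏ c ∈ (SS L J K i).filter (fun c => g ≤ c), ps s t (fr b L c * α)) ≤
    2 * Q * (Q * (CM * H ^ (L - K)) + T)) ∧
  (∀ P : ℕ, 1 ≤ P → ∑ m ∈ (Ico P (2 * P)).filter (fun m => m.Coprime (2 * b)),
    EM (m ^ 2) (fun α => ∏ c ∈ (SS L J K i).filter (fun c => g ≤ c), ps s t (fr b L c * α)) ≤
      P * (CM * H ^ (L - K)) + T)

/-- the sum over the fractions with denominators `Q ≤ q < 2 Q` -/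
def BigG (b s t g : ℕ) (κ : ℝ) : Prop := ∃ C δ : ℝ, 0 < C ∧ 0 < δ ∧ δ < 1 ∧ ∀ L Q : ℕ, 1 ≤ Q →
    (Q : ℝ) ≤ (b : ℝ) ^ (κ * L) → pts b Q (FG b s t g L L) ≤ C * (Q : ℝ) ^ (1 - δ)

open Classical in
/-- few of these palindromes are in given residue classes modulo large squares -/
def SqG (b s t g : ℕ) (κ : ℝ) : Prop := ∀ η : ℝ, 0 < η → ∀ A : ℕ, ∀ᶠ L : ℕ in atTop, ∀ h : ℕ → ℕ,
    (((univ : Finset (Fin L → Fin s × Fin t)).filter (fun m => ∃ p : ℕ, p.Coprime (2 * b) ∧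
      (b : ℝ) ^ (η * L) ≤ p ∧ (p : ℝ) ≤ (b : ℝ) ^ (κ * L) ∧ pvG b s t g L m ≡ h p [MOD p ^ 2])).card : ℝ)
      ≤ ((s : ℝ) * t) ^ L / (L : ℝ) ^ A

/-- (G1) the pointwise bound (port of `W571.PW.Pt.main`). -/
def StG1 : Prop := ∀ b s t g : ℕ, 2 ≤ b → 2 ≤ s → 1 ≤ t → s + t = b + 1 → PtG b s t g

/-- (G2) large sieve and square moduli for the fourth power of a block (port of `W342.PW2.mainLS`, `mainSq4`). -/
def StG2 : Prop := ∀ b s t g : ℕ, 2 ≤ b → 1 ≤ s → 1 ≤ t → s + t = b + 1 → ∃ CL : ℝ, 0 < CL ∧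
  (∀ L J Q : ℕ, 1 ≤ J → J ≤ L → Q ≤ b ^ J → b ^ J ≤ b * Q →
    pts b Q (fun α => FG b s t g L J α ^ 4) ≤ CL * Q * (b * m4 s t) ^ J) ∧
  (∀ L J M : ℕ, J ≤ L → b ^ (2 * J + 2) ≤ M → M.Coprime b →
    EM M (fun α => FG b s t g L J α ^ 4) ≤ CL * m4 s t ^ J)

/-- (G3) the alternating majorant (port of `W139.PX.majP_alt`). -/
def StG3 : Prop := ∀ (b s t g : ℕ) (H : ℝ), 2 ≤ b → 1 ≤ s → 1 ≤ t → s ≤ b → t ≤ b → 0 < H → H ≤ 1 →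
  H ^ 2 = 1 / ((s : ℝ) * t) → ∃ CM : ℝ, 0 < CM ∧ MajG b s t g H CM

/-- (G4) port of `W139.PX.bigW_of_majP`. -/
def StG4 : Prop := ∀ (b s t g : ℕ) (H CM κ : ℝ), 2 ≤ b → 1 ≤ s → 1 ≤ t → s + t = b + 1 →
  (b : ℝ) * m4 s t < 1 → MajG b s t g H CM → 0 < H → 1 ≤ b * H → 0 < CM → 0 < κ → (b : ℝ) ^ κ * H < 1 →
  BigG b s t g κ

/-- (G5) port of `K3h54.PC.StP2`. -/
def StG5 : Prop := ∀ (b s t g : ℕ) (H CM κ : ℝ), MajG b s t g H CM → 0 < H → 1 ≤ b * H → 0 < CM → 2 ≤ b →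
  1 ≤ s → 1 ≤ t → s + t = b + 1 → (b : ℝ) * m4 s t < 1 → 0 < κ → (b : ℝ) ^ κ * H < 1 → SqG b s t g κ

/-- (G6) counting by exponential sums (port of `Y816.PS.cnth_bound`). -/
def StG6 : Prop := ∀ b s t g L q h : ℕ, 0 < s → 0 < t → q.Coprime (2 * b) →
  |(((univ : Finset (Fin L → Fin s × Fin t)).filter (fun m => pvG b s t g L m ≡ h [MOD q])).card : ℝ) -
    ((s : ℝ) * t) ^ L / q| ≤ erG b s t g L q

/-- (G7) port of `K3h54.PC.StP1`. -/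
def StG7 : Prop := ∀ (w b s t g : ℕ), 2 ≤ b → 1 ≤ s → 1 ≤ t → PtG b s t g → ∀ κ : ℝ, 0 < κ → κ < 1 →
  BigG b s t g κ → ∀ A : ℕ, ∀ᶠ L : ℕ in atTop,
    ∑ q ∈ (Icc 1 ⌊(b : ℝ) ^ (κ * L)⌋₊).filter (fun q => q.Coprime (2 * b)),
      (q.divisors.card : ℝ) ^ w * erG b s t g L q ≤ ((s : ℝ) * t) ^ L / (L : ℝ) ^ A

/-- (G8) the numerical parameters. -/
def StG8 : Prop := ∀ b : ℕ, 2 ≤ b → ∃ (s t : ℕ) (H κ : ℝ), 2 ≤ s ∧ 1 ≤ t ∧ s ≤ b ∧ t ≤ b ∧ s + t = b + 1 ∧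
  0 < H ∧ H ≤ 1 ∧ H ^ 2 = 1 / ((s : ℝ) * t) ∧ 1 ≤ b * H ∧ (b : ℝ) * m4 s t < 1 ∧ (b : ℝ) ^ κ * H < 1 ∧
  3 * (b : ℝ) / 4 < ((s : ℝ) * t) ^ 2 / (Eset s t).card ∧
  κ = if 9 ≤ b then 183 / 250 else if 3 ≤ b then 63 / 100 else 49 / 100

/-- (G9) the multiplicities (port of `W89.PW.card_sq_le`). -/
def StG9 : Prop := ∀ b s t g L : ℕ, 2 ≤ b → s + t = b + 1 → g ≤ L →
  ∀ G : Finset (Fin L → Fin s × Fin t),
    G.card ^ 2 ≤ (G.image (pvG b s t g L)).card * ((Eset s t).card ^ (L - g) * ((s * t) ^ 2) ^ g)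

/-- (G10) the digits of `pvG + hy`. -/
def StG10 : Prop := ∀ b s t g L y : ℕ, 2 ≤ b → s + t = b + 1 → g ≤ L → y < b ^ (g + 1) →
  ∀ m : Fin L → Fin s × Fin t,
    b ^ (2 * L + 2) ≤ pvG b s t g L m + hy b g L y ∧
    pvG b s t g L m + hy b g L y < b ^ (2 * L + 3) ∧
    (Nat.digits b (pvG b s t g L m + hy b g L y)).reverse = Nat.digits b (pvG b s t g L m + hy b g L y) ∧
    (pvG b s t g L m + hy b g L y) / b ^ (L + 1) % b ^ (g + 1) = y ∧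
    (pvG b s t g L m + hy b g L y) / b ^ (L + 2 + g) = pvG b s t g L m / b ^ (L + 2 + g) ∧
    ((Even b ∨ Odd (y % b)) → (pvG b s t g L m + hy b g L y).Coprime (2 * b)) ∧
    ∀ m' : Fin L → Fin s × Fin t, pvG b s t g L m / b ^ (L + 2 + g) = pvG b s t g L m' / b ^ (L + 2 + g) →
      pvG b s t g L m = pvG b s t g L m'

open Classical in
/-- the final theorem: middle digits. -/
def StFinM : Prop := ∀ b : ℕ, 2 ≤ b → ∀ m : ℕ, ∃ K : ℕ, ∀ (g : ℕ) (S : Finset ℕ), K ≤ S.card →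
  (∀ y ∈ S, y < b ^ (g + 1) ∧ (Even b ∨ Odd (y % b))) → ∀ᶠ N : ℕ in atTop,
  ∃ H ⊆ S, H.card = m ∧ (3 * (b : ℝ) / 4) ^ N ≤ (((range (b ^ (N - g))).filter (fun w => ∀ y ∈ H, ∃ n : ℕ,
    b ^ (2 * N) ≤ n ∧ n < b ^ (2 * N + 1) ∧ (Nat.digits b n).reverse = Nat.digits b n ∧
    n / b ^ N % b ^ (g + 1) = y ∧ n / b ^ (N + 1 + g) = w ∧
    n.primeFactorsList.length ≤ (if 9 ≤ b then 3 else if 3 ≤ b then 4 else 5) ∧
    ∀ p : ℕ, p.Prime → p ∣ n → (b : ℝ) ^ ((N : ℝ) / 11) ≤ p)).card : ℝ)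

end Pool.Agent.K3h54.PM
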