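import Pool.Agent.K3h54.PM.Stm
import Pool.Agent.W22.PW_M4

/-!
# PM brick G8: the numerical parameters
-/

set_option autoImplicit false

namespace Pool.Agent.K3h54.PM.G8

open Finset Filter Topology
open Pool.Agent.W89.PW
open Pool.Agent.W139.PX

lemma Eset21 : (Eset 2 1).card = 2 := by decide

theorem main : StG8 := by
  intro b hb
  rcases Nat.lt_or_ge b 3 with h2 | h3
  · obtain rfl : b = 2 := by omega
    obtain ⟨H, hH⟩ : ∃ H : ℝ, H = Real.sqrt (1 / 2) := ⟨_, rfl⟩
    have hH0 : 0 < H := by rw [hH]; exact Real.sqrt_pos.2 (by norm_num)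
    have hH2 : H ^ 2 = 1 / 2 := by rw [hH]; exact Real.sq_sqrt (by norm_num)
    have hH1 : H ≤ 1 := by nlinarith
    have hHh : 1 / 2 ≤ H := by nlinarith
    have hκ : (((2 : ℕ) : ℝ)) ^ (49 / 100 : ℝ) * H < 1 := by
      rw [hH, Real.sqrt_eq_rpow, one_div, Real.inv_rpow (by norm_num)]
      rw [← div_eq_mul_inv, div_lt_one (by positivity)]
      push_cast
      exact Real.rpow_lt_rpow_of_exponent_lt (by norm_num) (by norm_num)
    refine ⟨2, 1, H, 49 / 100, le_rfl, le_rfl, le_rfl, by norm_num, rfl, hH0, hH1, ?_, ?_, ?_, hκ, ?_, ?_⟩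
    · rw [hH2]; norm_num
    · push_cast; linarith
    · rw [m4_two]; norm_num
    · rw [Eset21]; norm_num
    · norm_num
  · obtain ⟨s, hs⟩ : ∃ s, s = (b + 1) / 2 := ⟨_, rfl⟩
    obtain ⟨t, ht⟩ : ∃ t, t = b + 1 - s := ⟨_, rfl⟩
    have hs2 : 2 ≤ s := by omega
    have ht1 : 1 ≤ t := by omega
    have hsb : s ≤ b := by omega
    have htb : t ≤ b := by omega
    have hst : s + t = b + 1 := by omega
    have hsR : (1 : ℝ) ≤ s := by exact_mod_cast (by omega : 1 ≤ s)
    have htR : (1 : ℝ) ≤ t := by exact_mod_cast ht1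
    have hbR : (3 : ℝ) ≤ b := by exact_mod_cast h3
    have hsbR : (s : ℝ) ≤ b := by exact_mod_cast hsb
    have htbR : (t : ℝ) ≤ b := by exact_mod_cast htb
    obtain ⟨H, hH⟩ : ∃ H : ℝ, H = Real.sqrt (1 / ((s : ℝ) * t)) := ⟨_, rfl⟩
    have hH0 : 0 < H := by rw [hH]; exact Real.sqrt_pos.2 (by positivity)
    have hH2 : H ^ 2 = 1 / ((s : ℝ) * t) := by rw [hH]; exact Real.sq_sqrt (by positivity)
    have hst1 : (1 : ℝ) ≤ (s : ℝ) * t := by nlinarith
    have hH1 : H ≤ 1 := by
      have : H ^ 2 ≤ 1 := by rw [hH2, div_le_one (by positivity)]; exact hst1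
      nlinarith
    have hbH : 1 ≤ (b : ℝ) * H := by
      have h5 : (1 : ℝ) ≤ ((b : ℝ) * H) ^ 2 := by
        rw [mul_pow, hH2, mul_one_div, le_div_iff₀ (by positivity), one_mul, sq]
        exact mul_le_mul hsbR htbR (by positivity) (by positivity)
      have h6 : 0 ≤ (b : ℝ) * H := by positivity
      nlinarith
    have hHH : H ≤ HH s t := by
      have h5 : 0 < HH s t := by unfold HH; positivity
      have h6 : H ^ 2 ≤ HH s t ^ 2 := by
        rw [hH2]
        unfold HH
        rw [div_pow, div_add_div _ _ (by positivity) (by positivity), div_pow, div_div,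
          div_le_div_iff₀ (by positivity) (by positivity)]
        nlinarith [sq_nonneg ((s : ℝ) - t), mul_pos (show (0 : ℝ) < s by linarith) (show (0 : ℝ) < t by linarith),
          mul_nonneg (mul_nonneg (show (0 : ℝ) ≤ s by linarith) (show (0 : ℝ) ≤ t by linarith))
            (sq_nonneg ((s : ℝ) - t))]
      exact le_of_sq_le_sq h6 h5.le
    have hm4 : (b : ℝ) * m4 s t < 1 := by
      have h := Pool.Agent.W22.PWM4.main b h3
      rw [← hs, ← ht] at h
      linarith
    obtain ⟨κ, hκ⟩ : ∃ κ : ℝ, κ = if 9 ≤ b then 183 / 250 else if 3 ≤ b then 63 / 100 else 49 / 100 := ⟨_, rfl⟩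
    have hκ1 : (b : ℝ) ^ κ * H < 1 := by
      have h5 : (b : ℝ) ^ κ * H ≤ (b : ℝ) ^ κ * HH s t := mul_le_mul_of_nonneg_left hHH (by positivity)
      refine h5.trans_lt ?_
      rcases lt_or_ge b 9 with h9 | h9
      · rw [if_neg (by omega), if_pos h3] at hκ
        rw [hκ]
        exact kap3 h3 (by omega) hs ht
      · rw [if_pos h9] at hκ
        rw [hκ]
        exact kap9 h9 hs ht
    exact ⟨s, t, H, κ, hs2, ht1, hsb, htb, hst, hH0, hH1, hH2, hbH, hm4, hκ1, energy_bound h3 hs ht, hκ⟩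

end Pool.Agent.K3h54.PM.G8
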