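import Pool.Agent.K3h54.PM.Stm
import Pool.Agent.W89.PW.Count

/-!
# Brick G9: multiplicities (by helper70, port of `W89.PW.Count`)
-/

set_option autoImplicit false

namespace Pool.Agent.K3h54.PM.G9

open Finset
open Pool.Agent.W89.PW (pv fr Eset)
open Pool.Agent.W571.PW.Dig (dg pv_eq)
open Pool.Agent.H181R5.PBT9 (pvl_inj)

theorem dsum_eq2 {b s t L : ℕ} (hb : 2 ≤ b) (hst : s + t = b + 1) {m m' : Fin L → Fin s × Fin t}
    (h : pv b s t L m = pv b s t L m') (c : Fin L) :
    ((m c).1 : ℕ) + ((m c).2 : ℕ) = ((m' c).1 : ℕ) + ((m' c).2 : ℕ) := by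
  have hb1 : 1 < b := by omega
  rw [pv_eq hb1 hst, pv_eq hb1 hst] at h
  have h2 := pvl_inj (b := b) hb (L + 1) (by omega)
    (show (1, dg b s t L hb1 hst m) ∈ {x : ℕ × (Fin (L + 1) → Fin b) | x.1 < b} from hb1)
    (show (1, dg b s t L hb1 hst m') ∈ {x : ℕ × (Fin (L + 1) → Fin b) | x.1 < b} from hb1) h
  have h3 : dg b s t L hb1 hst m = dg b s t L hb1 hst m' := (Prod.ext_iff.1 h2).2
  exact congrArg Fin.val (congrFun h3 c.succ)

/-- the digits at the places `c < g` are replaced by `0` -/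
def zr {s t L : ℕ} (g : ℕ) (hs : 0 < s) (ht : 0 < t) (m : Fin L → Fin s × Fin t) :
    Fin L → Fin s × Fin t :=
  fun c => if g ≤ (c : ℕ) then m c else (⟨0, hs⟩, ⟨0, ht⟩)

theorem pv_zr (b : ℕ) {s t L : ℕ} (g : ℕ) (hs : 0 < s) (ht : 0 < t) (m : Fin L → Fin s × Fin t) :
    pv b s t L (zr g hs ht m) = pvG b s t g L m + b ^ (L + 1) := by
  unfold pv pvG
  have h1 : ∑ c : Fin L, (((zr g hs ht m c).1 : ℕ) + ((zr g hs ht m c).2 : ℕ)) * fr b L c =
      ∑ c ∈ (univ : Finset (Fin L)).filter (fun c : Fin L => g ≤ (c : ℕ)),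
        (((m c).1 : ℕ) + ((m c).2 : ℕ)) * fr b L c := by
    rw [sum_filter]
    refine sum_congr rfl fun c _ => ?_
    unfold zr
    by_cases hc : g ≤ (c : ℕ)
    · simp only [if_pos hc]
    · simp only [if_neg hc]
      simp
  rw [h1]
  ring

theorem dsumG {b s t g L : ℕ} (hb : 2 ≤ b) (hst : s + t = b + 1) {m m' : Fin L → Fin s × Fin t}
    (h : pvG b s t g L m = pvG b s t g L m') (c : Fin L) (hc : g ≤ (c : ℕ)) :
    ((m c).1 : ℕ) + ((m c).2 : ℕ) = ((m' c).1 : ℕ) + ((m' c).2 : ℕ) := by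
  have hs : 0 < s := (m c).1.pos
  have ht : 0 < t := (m c).2.pos
  have h1 : pv b s t L (zr g hs ht m) = pv b s t L (zr g hs ht m') := by
    rw [pv_zr, pv_zr, h]
  have h2 := dsum_eq2 hb hst h1 c
  unfold zr at h2
  simpa only [if_pos hc] using h2

open Classical in
/-- pairs of digit vectors with the same value -/
theorem pairs_card {b s t g L : ℕ} (hb : 2 ≤ b) (hst : s + t = b + 1) (hg : g ≤ L) :
    ((univ : Finset ((Fin L → Fin s × Fin t) × (Fin L → Fin s × Fin t))).filter
      (fun x => pvG b s t g L x.1 = pvG b s t g L x.2)).card ≤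
      (Eset s t).card ^ (L - g) * ((s * t) ^ 2) ^ g := by
  have h1 : (Fintype.piFinset (fun c : Fin L => if g ≤ (c : ℕ) then Eset s t else univ)).card =
      (Eset s t).card ^ (L - g) * ((s * t) ^ 2) ^ g := by
    rw [Fintype.card_piFinset]
    have h2 : ∀ c : Fin L, (if g ≤ (c : ℕ) then Eset s t else univ).card =
        (fun j : ℕ => if g ≤ j then (Eset s t).card else (s * t) ^ 2) (c : ℕ) := by
      intro c
      by_cases hc : g ≤ (c : ℕ)
      · simp only [if_pos hc]
      · simp only [if_neg hc]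
        rw [card_univ, Fintype.card_prod, Fintype.card_prod, Fintype.card_fin, Fintype.card_fin]
        ring
    rw [prod_congr rfl (fun c _ => h2 c),
      Fin.prod_univ_eq_prod_range (fun j : ℕ => if g ≤ j then (Eset s t).card else (s * t) ^ 2) L]
    obtain ⟨K, rfl⟩ := Nat.exists_eq_add_of_le hg
    rw [prod_range_add, Nat.add_sub_cancel_left]
    have h3 : ∏ j ∈ range g, (if g ≤ j then (Eset s t).card else (s * t) ^ 2) =
        ((s * t) ^ 2) ^ g := by
      rw [prod_congr rfl (fun j hj => if_neg (by rw [mem_range] at hj; omega)), prod_const,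
        card_range]
    have h4 : ∏ j ∈ range K, (if g ≤ g + j then (Eset s t).card else (s * t) ^ 2) =
        (Eset s t).card ^ K := by
      rw [prod_congr rfl (fun j _ => if_pos (Nat.le_add_right g j)), prod_const, card_range]
    rw [h3, h4, mul_comm]
  rw [← h1]
  apply card_le_card_of_injOn (fun x c => (x.1 c, x.2 c))
  · intro x hx
    rw [mem_coe, mem_filter] at hx
    rw [mem_coe, Fintype.mem_piFinset]
    intro c
    by_cases hc : g ≤ (c : ℕ)
    · simp only [if_pos hc]
      unfold Eset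
      rw [mem_filter]
      exact ⟨mem_univ _, dsumG hb hst hx.2 c hc⟩
    · simp only [if_neg hc]
      exact mem_univ _
  · intro x _ y _ h
    have h2 : ∀ c, (x.1 c, x.2 c) = (y.1 c, y.2 c) := fun c => congrFun h c
    apply Prod.ext
    · funext c
      exact (Prod.ext_iff.1 (h2 c)).1
    · funext c
      exact (Prod.ext_iff.1 (h2 c)).2

/-- Cauchy's inequality for the fibres -/
theorem main : StG9 := by
  classical
  intro b s t g L hb hst hg G
  have h1 : G.card = ∑ n ∈ G.image (pvG b s t g L), (G.filter (fun m => pvG b s t g L m = n)).card :=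
    card_eq_sum_card_fiberwise fun m hm => mem_coe.2 (mem_image_of_mem _ (mem_coe.1 hm))
  have h2 := sq_sum_le_card_mul_sum_sq (s := G.image (pvG b s t g L))
    (f := fun n => (G.filter (fun m => pvG b s t g L m = n)).card)
  rw [← h1] at h2
  refine h2.trans (Nat.mul_le_mul_left _ (le_trans ?_ (pairs_card hb hst hg)))
  have h3 : ∑ n ∈ G.image (pvG b s t g L), (G.filter (fun m => pvG b s t g L m = n)).card ^ 2 =
      ((G ×ˢ G).filter (fun x => pvG b s t g L x.1 = pvG b s t g L x.2)).card := by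
    rw [card_eq_sum_card_fiberwise (f := fun x : (Fin L → Fin s × Fin t) × (Fin L → Fin s × Fin t) =>
      pvG b s t g L x.1) (t := G.image (pvG b s t g L))]
    · apply sum_congr rfl
      intro n _
      rw [sq, ← card_product]
      congr 1
      ext x
      simp only [mem_filter, mem_product]
      constructor
      · rintro ⟨⟨h4, h5⟩, h6, h7⟩
        exact ⟨⟨⟨h4, h6⟩, h5.trans h7.symm⟩, h5⟩
      · rintro ⟨⟨⟨h4, h6⟩, h7⟩, h5⟩
        exact ⟨⟨h4, h5⟩, h6, h7.symm.trans h5⟩
    · intro x hx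
      rw [mem_coe, mem_filter, mem_product] at hx
      exact mem_coe.2 (mem_image_of_mem _ hx.1.1)
  rw [h3]
  apply card_le_card
  intro x hx
  rw [mem_filter] at hx ⊢
  exact ⟨mem_univ _, hx.2⟩

end Pool.Agent.K3h54.PM.G9
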