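import Pool.Agent.K3h54.PC.FINQ

/-!
# Clusters of almost prime palindromes, middle digits: the final assembly
-/

set_option autoImplicit false
set_option linter.unusedSectionVars false

namespace Pool.Agent.K3h54.PM

namespace FING

open Finset Filter
open Pool.Agent.W89.PW (m4 Eset fr ps)
open Pool.Agent.K3h54.PC (StMTW)
open Pool.Agent.K3h54.PC.FINQ (numQ)

lemma erG_nonneg (b s t g L q : ℕ) : 0 ≤ erG b s t g L q := by
  unfold erG UG FG
  refine mul_nonneg (by positivity) (sum_nonneg fun _ _ => sum_nonneg fun _ _ => prod_nonneg fun _ _ => ?_)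
  exact mul_nonneg (Pool.Agent.H39R3.PB.ph_nonneg _ _) (Pool.Agent.H39R3.PB.ph_nonneg _ _)

/-- pigeonhole -/
lemma pigeon (φ : ℕ → ℕ) (W n : ℕ) (hW : 0 < W) (S : Finset ℕ) (hS : W * n + 1 ≤ S.card) :
    ∃ x : Fin n → ℕ, Function.Injective x ∧ (∀ i, x i ∈ S) ∧ ∀ i j, φ (x i) ≡ φ (x j) [MOD W] := by
  classical
  obtain ⟨y, -, hy⟩ := Finset.exists_lt_card_fiber_of_mul_lt_card_of_maps_to
    (s := S) (t := range W) (f := fun x => φ x % W) (n := n)
    (fun x _ => mem_range.2 (Nat.mod_lt _ hW))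
    (by rw [card_range]; omega)
  obtain ⟨T, hT, hTc⟩ := Finset.exists_subset_card_eq hy.le
  let e : Fin n ≃ T := (Fin.castOrderIso hTc.symm).toEquiv.trans T.equivFin.symm
  have hm : ∀ i, (e i : ℕ) ∈ S ∧ φ (e i : ℕ) % W = y := fun i => by
    have h1 := hT (e i).2
    rw [mem_filter] at h1
    exact h1
  refine ⟨fun i => (e i : ℕ), ?_, fun i => (hm i).1, fun i j => ?_⟩
  · intro i j h
    exact e.injective (Subtype.ext h)
  · exact (hm i).2.trans (hm j).2.symm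

open Classical in
/-- the final theorem with parameters -/
theorem core (hM : StMTW) (g6 : StG6) (g7 : StG7) (g9 : StG9) (g10 : StG10) (b s t r : ℕ) (κ τ : ℝ)
    (hb : 2 ≤ b) (hs : 1 ≤ s) (ht : 1 ≤ t) (hst : s + t = b + 1) (hPt : ∀ g, PtG b s t g)
    (hBig : ∀ g, BigG b s t g κ) (hSq : ∀ g, SqG b s t g κ)
    (hκ1 : κ < 1) (hτ : 1 / 5 ≤ τ) (hτκ : 2 * τ < κ) (hr : 25 < (24 * (r : ℝ) - 3) * τ)
    (hE : 3 * (b : ℝ) / 4 < ((s : ℝ) * t) ^ 2 / (Eset s t).card) (m : ℕ) :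
    ∃ K : ℕ, ∀ (g : ℕ) (S : Finset ℕ), K ≤ S.card →
    (∀ y ∈ S, y < b ^ (g + 1) ∧ (Even b ∨ Odd (y % b))) → ∀ᶠ N : ℕ in atTop,
    ∃ H ⊆ S, H.card = m ∧ (3 * (b : ℝ) / 4) ^ N ≤ (((range (b ^ (N - g))).filter (fun w => ∀ y ∈ H, ∃ n : ℕ,
      b ^ (2 * N) ≤ n ∧ n < b ^ (2 * N + 1) ∧ (Nat.digits b n).reverse = Nat.digits b n ∧
      n / b ^ N % b ^ (g + 1) = y ∧ n / b ^ (N + 1 + g) = w ∧
      n.primeFactorsList.length ≤ r ∧
      ∀ p : ℕ, p.Prime → p ∣ n → (b : ℝ) ^ ((N : ℝ) / 11) ≤ p)).card : ℝ) := by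
  have hbr : (2 : ℝ) ≤ b := by exact_mod_cast hb
  have hκ0 : 0 < κ := by linarith
  have hsr : (1 : ℝ) ≤ s := by exact_mod_cast hs
  have htr : (1 : ℝ) ≤ t := by exact_mod_cast ht
  have hst0 : (0 : ℝ) < (s : ℝ) * t := by positivity
  obtain ⟨k, W, A, hW, hcore⟩ := Pool.Agent.K3h54.PC.Core2.core2 hM b s t r κ τ hb hs ht hκ1 hτ hτκ hr m
  refine ⟨W * 2 ^ k + 1, fun g S hS hSx => ?_⟩
  have hE0 : 0 < (Eset s t).card := by
    apply card_pos.2
    refine ⟨((⟨0, by omega⟩, ⟨0, by omega⟩), (⟨0, by omega⟩, ⟨0, by omega⟩)), ?_⟩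
    unfold Eset
    simp
  have hE0r : (0 : ℝ) < (Eset s t).card := by exact_mod_cast hE0
  obtain ⟨ρ, hρ⟩ : ∃ ρ : ℝ, ρ = ((s : ℝ) * t) ^ 2 / (Eset s t).card := ⟨_, rfl⟩
  have hρ0 : 0 < ρ := by rw [hρ]; positivity
  have hev1 := g7 k b s t g hb hs ht (hPt g) κ hκ0 hκ1 (hBig g) (A + 1)
  have hev2 := hSq g (2 * (τ / 4)) (by linarith) (A + 1)
  have hev3 := numQ (3 * (b : ℝ) / 4) ρ (3 * (b : ℝ) / 4 * ρ ^ g) (2 * (A + 1)) (by positivity)
    (by rw [hρ]; exact hE) (by positivity)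
  rw [← Filter.map_add_atTop_eq_nat 1, Filter.eventually_map]
  filter_upwards [hev1, hev2, hev3, hcore 3, eventually_ge_atTop (g + 10)] with L e1 e2 e3 hcL hL1
  have hgL : g ≤ L := by omega
  have hL0 : (0 : ℝ) < L := by exact_mod_cast (by omega : 0 < L)
  obtain ⟨x, hxi, hxS, hxW⟩ := pigeon (hy b g L) W (2 ^ k) hW S hS
  have hP : ∀ i (μ : Fin L → Fin s × Fin t), _ := fun i =>
    g10 b s t g L (x i) hb hst hgL (hSx _ (hxS i)).1
  obtain ⟨μ0, -⟩ : ∃ μ : Fin L → Fin s × Fin t, True :=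
    ⟨fun _ => (⟨0, by omega⟩, ⟨0, by omega⟩), trivial⟩
  obtain ⟨I, hI, G, hG, hGI⟩ := hcL (pvG b s t g L) 1 (fun i => hy b g L (x i))
    (fun q => erG b s t g L q)
    (fun p hp hpa => absurd (Nat.dvd_one.1 hpa) hp.one_lt.ne')
    (fun i j hij => by
      apply hxi
      have h5 := (hP i μ0).2.2.2.1
      have h6 := (hP j μ0).2.2.2.1
      simp only at hij
      rw [hij] at h5
      exact h5.symm.trans h6)
    hxW
    (fun i μ => by
      rw [one_mul]
      exact (hP i μ).2.1)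
    (fun i μ => by
      rw [one_mul]
      exact (hP i μ).2.2.2.2.2.1 (hSx _ (hxS i)).2)
    (fun q => erG_nonneg b s t g L q)
    (fun q r' hq hqB => by
      have h5 := g6 b s t g L q r' (by omega) (by omega) hqB
      convert h5 using 4)
    e1 e2
  simp only [one_mul] at hGI
  refine ⟨I.image x, ?_, ?_, ?_⟩
  · intro y hy
    rw [mem_image] at hy
    obtain ⟨i, _, rfl⟩ := hy
    exact hxS i
  · rw [card_image_of_injective _ hxi, hI]
  · obtain ⟨F, hF⟩ : ∃ F : Finset ℕ, F = ((range (b ^ (L + 1 - g))).filter (fun w => ∀ y ∈ I.image x, ∃ n : ℕ,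
      b ^ (2 * (L + 1)) ≤ n ∧ n < b ^ (2 * (L + 1) + 1) ∧ (Nat.digits b n).reverse = Nat.digits b n ∧
      n / b ^ (L + 1) % b ^ (g + 1) = y ∧ n / b ^ (L + 1 + 1 + g) = w ∧
      n.primeFactorsList.length ≤ r ∧
      ∀ p : ℕ, p.Prime → p ∣ n → (b : ℝ) ^ (((L + 1 : ℕ) : ℝ) / 11) ≤ p)) := ⟨_, rfl⟩
    rw [← hF]
    have hsub : (G.image (fun μ => pvG b s t g L μ / b ^ (L + 2 + g))) ⊆ F := by
      intro w hw
      rw [mem_image] at hw
      obtain ⟨μ, hμ, rfl⟩ := hw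
      rw [hF, mem_filter, mem_range]
      constructor
      · -- the size
        have h5 := (g10 b s t g L 0 hb hst hgL (by positivity) μ).2.1
        have h6 : pvG b s t g L μ < b ^ (L + 2 + g) * b ^ (L + 1 - g) := by
          rw [← pow_add, show L + 2 + g + (L + 1 - g) = 2 * L + 3 by omega]
          omega
        exact Nat.div_lt_of_lt_mul h6
      · intro y hy
        rw [mem_image] at hy
        obtain ⟨i, hi, rfl⟩ := hy
        obtain ⟨d1, d2, d3, d4, d5, d6, d7⟩ := hP i μ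
        refine ⟨pvG b s t g L μ + hy b g L (x i), ?_, ?_, d3, d4, ?_, (hGI μ hμ i hi).1, ?_⟩
        · rw [show 2 * (L + 1) = 2 * L + 2 by ring]
          exact d1
        · rw [show 2 * (L + 1) + 1 = 2 * L + 3 by ring]
          exact d2
        · exact d5
        · intro p hp hpn
          refine le_trans ?_ ((hGI μ hμ i hi).2 p hp hpn)
          apply Real.rpow_le_rpow_of_exponent_le (by linarith)
          have h5 : (10 : ℝ) ≤ L := by exact_mod_cast (by omega : 10 ≤ L)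
          push_cast
          linarith
    have hcard1 : (G.image (pvG b s t g L)).card ≤ F.card := by
      refine le_trans ?_ (card_le_card hsub)
      have h5 : G.image (fun μ => pvG b s t g L μ / b ^ (L + 2 + g)) =
          (G.image (pvG b s t g L)).image (fun v => v / b ^ (L + 2 + g)) := by
        rw [image_image]
        rfl
      have hinj : Set.InjOn (fun v => v / b ^ (L + 2 + g)) ((G.image (pvG b s t g L) : Finset ℕ) : Set ℕ) := by
        intro u hu v hv huv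
        rw [mem_coe, mem_image] at hu hv
        obtain ⟨μ, -, rfl⟩ := hu
        obtain ⟨μ', -, rfl⟩ := hv
        exact (g10 b s t g L 0 hb hst hgL (by positivity) μ).2.2.2.2.2.2 μ' huv
      rw [h5, card_image_of_injOn hinj]
    have h7 := g9 b s t g L hb hst hgL G
    have h8 : (G.card : ℝ) ^ 2 ≤ F.card * (((Eset s t).card : ℝ) ^ (L - g) * (((s : ℝ) * t) ^ 2) ^ g) := by
      have : G.card ^ 2 ≤ F.card * ((Eset s t).card ^ (L - g) * ((s * t) ^ 2) ^ g) :=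
        h7.trans (Nat.mul_le_mul_right _ hcard1)
      exact_mod_cast this
    have h9 := (pow_le_pow_left₀ (by positivity) hG 2).trans h8
    have h10 : ((Eset s t).card : ℝ) ^ (L - g) * (((s : ℝ) * t) ^ 2) ^ g =
        ((Eset s t).card : ℝ) ^ L * ρ ^ g := by
      rw [hρ, div_pow, mul_div_assoc', eq_div_iff (by positivity)]
      have : ((Eset s t).card : ℝ) ^ L = ((Eset s t).card : ℝ) ^ (L - g) * ((Eset s t).card : ℝ) ^ g := by
        rw [← pow_add]
        congr 1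
        omega
      rw [this]
      ring
    rw [h10] at h9
    have h11 : ρ ^ L ≤ F.card * ρ ^ g * (L : ℝ) ^ (2 * (A + 1)) := by
      rw [hρ, div_pow, div_le_iff₀ (by positivity), ← hρ]
      rw [div_pow, div_le_iff₀ (by positivity)] at h9
      calc (((s : ℝ) * t) ^ 2) ^ L = (((s : ℝ) * t) ^ L) ^ 2 := by rw [← pow_mul, ← pow_mul, mul_comm 2 L]
        _ ≤ F.card * (((Eset s t).card : ℝ) ^ L * ρ ^ g) * ((L : ℝ) ^ (A + 1)) ^ 2 := h9
        _ = F.card * ρ ^ g * (L : ℝ) ^ (2 * (A + 1)) * ((Eset s t).card : ℝ) ^ L := by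
            rw [← pow_mul, mul_comm (A + 1) 2]
            ring
    have h12 := e3.trans h11
    have h13 : (3 * (b : ℝ) / 4) ^ (L + 1) * (ρ ^ g * (L : ℝ) ^ (2 * (A + 1))) ≤
        F.card * (ρ ^ g * (L : ℝ) ^ (2 * (A + 1))) := by
      calc (3 * (b : ℝ) / 4) ^ (L + 1) * (ρ ^ g * (L : ℝ) ^ (2 * (A + 1))) =
          3 * (b : ℝ) / 4 * ρ ^ g * (3 * (b : ℝ) / 4) ^ L * (L : ℝ) ^ (2 * (A + 1)) := by ring
        _ ≤ F.card * ρ ^ g * (L : ℝ) ^ (2 * (A + 1)) := h12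
        _ = _ := by ring
    exact le_of_mul_le_mul_right h13 (by positivity)

end FING

/-- the final theorem -/
theorem FING.main (hM : Pool.Agent.K3h54.PC.StMTW) (g1 : StG1) (g3 : StG3) (g4 : StG4) (g5 : StG5) (g6 : StG6) (g7 : StG7)
    (g8 : StG8) (g9 : StG9) (g10 : StG10) : StFinM := by
  intro b hb m
  obtain ⟨s, t, H, κ, hs, ht, hsb, htb, hst, hH, hH1, hH2, hbH, hm4, hκH, hE, hκ⟩ := g8 b hb
  have hs1 : 1 ≤ s := by omega
  have hκ0 : 0 < κ := by rw [hκ]; split_ifs <;> norm_num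
  have hPt : ∀ g, PtG b s t g := fun g => g1 b s t g hb hs ht hst
  have hMaj : ∀ g, ∃ CM : ℝ, 0 < CM ∧ MajG b s t g H CM := fun g =>
    g3 b s t g H hb hs1 ht hsb htb hH hH1 hH2
  have hBig : ∀ g, BigG b s t g κ := by
    intro g
    obtain ⟨CM, hCM, hM⟩ := hMaj g
    exact g4 b s t g H CM κ hb hs1 ht hst hm4 hM hH hbH hCM hκ0 hκH
  have hSq : ∀ g, SqG b s t g κ := by
    intro g
    obtain ⟨CM, hCM, hM⟩ := hMaj g
    exact g5 b s t g H CM κ hM hH hbH hCM hb hs1 ht hst hm4 hκ0 hκH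
  by_cases h9b : 9 ≤ b
  · rw [if_pos h9b] at hκ ⊢
    exact FING.core hM g6 g7 g9 g10 b s t 3 κ (91 / 250) hb hs1 ht hst hPt hBig hSq
      (by rw [hκ]; norm_num) (by norm_num) (by rw [hκ]; norm_num) (by norm_num) hE m
  · rw [if_neg h9b] at hκ ⊢
    by_cases h3b : 3 ≤ b
    · rw [if_pos h3b] at hκ ⊢
      exact FING.core hM g6 g7 g9 g10 b s t 4 κ (3 / 10) hb hs1 ht hst hPt hBig hSq
        (by rw [hκ]; norm_num) (by norm_num) (by rw [hκ]; norm_num) (by norm_num) hE m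
    · rw [if_neg h3b] at hκ ⊢
      exact FING.core hM g6 g7 g9 g10 b s t 5 κ (24 / 100) hb hs1 ht hst hPt hBig hSq
        (by rw [hκ]; norm_num) (by norm_num) (by rw [hκ]; norm_num) (by norm_num) hE m

end Pool.Agent.K3h54.PM
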