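import Pool.Agent.K3h54.PM.Stm
import Pool.Agent.W571.PW.Pt

/-!
# Brick G1: the pointwise bound (by helper70, port of `W571.PW.Pt`)
-/

set_option autoImplicit false

namespace Pool.Agent.K3h54.PM.G1

open Finset Pool.Agent.W89.PW Pool.Agent.W571.PW.Pt
open Pool.Agent.H512R3.PBT6 (kap kap_pos kap_lt_one)

lemma blocksG {b s t : ℕ} (hb : 2 ≤ b) (hs : 2 ≤ s) (hsb : s ≤ b) (g q h a L : ℕ) (hq1 : 1 < q)
    (hq : q.Coprime (2 * b)) (ha : a.Coprime q) (ht : q < b ^ h) (n : ℕ)
    (hn : n = 0 ∨ g + n * (2 * h + 2) ≤ L) :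
    ∏ j ∈ range (n * (2 * h + 2)), ps s t (fr b L (g + j) * ((a : ℝ) / q)) ≤ (1 - kap b) ^ n := by
  induction n with
  | zero => simp
  | succ n ih =>
    have h0 : g + (n * (2 * h + 2)) + (2 * h + 2) ≤ L := by
      have : (n + 1) * (2 * h + 2) = n * (2 * h + 2) + (2 * h + 2) := by ring
      omega
    rw [show (n + 1) * (2 * h + 2) = n * (2 * h + 2) + (2 * h + 2) by ring, prod_range_add, pow_succ]
    have h1 := ih (Or.inr (by omega))
    have h2 := block (t := t) hb hs hsb q h a L (g + n * (2 * h + 2)) hq1 hq ha ht h0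
    have h3 : 0 ≤ 1 - kap b := by linarith [kap_lt_one hb]
    simp only [← add_assoc]
    exact mul_le_mul h1 h2 (prod_nonneg fun _ _ => ps_nonneg _ _ _) (by positivity)

theorem main : Pool.Agent.K3h54.PM.StG1 := by
  intro b s t g hb hs ht hst
  have hsb : s ≤ b := by omega
  refine ⟨kap b, kap_pos hb, kap_lt_one hb, ?_⟩
  intro q h a L hq1 hq ha hqh
  have h1 : (L - g) / (2 * h + 2) * (2 * h + 2) ≤ L - g := Nat.div_mul_le_self _ _
  have h0 : (L - g) / (2 * h + 2) = 0 ∨ g + (L - g) / (2 * h + 2) * (2 * h + 2) ≤ L := by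
    rcases le_or_gt g L with h | h
    · right; omega
    · left
      rw [Nat.sub_eq_zero_of_le h.le]
      simp
  refine le_trans ?_ (blocksG (t := t) hb hs hsb g q h a L hq1 hq ha hqh _ h0)
  unfold FG
  have hset : (range L).filter (fun c => g ≤ c) = Ico g L := by
    ext c
    rw [mem_filter, mem_range, mem_Ico]
    tauto
  rw [hset, prod_Ico_eq_prod_range]
  generalize hN : (L - g) / (2 * h + 2) * (2 * h + 2) = N at h1
  obtain ⟨K, hK⟩ := Nat.exists_eq_add_of_le h1
  have h2 : ∏ c ∈ range (L - g), ps s t (fr b L (g + c) * ((a : ℝ) / q)) =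
      (∏ c ∈ range N, ps s t (fr b L (g + c) * ((a : ℝ) / q))) *
        ∏ c ∈ range K, ps s t (fr b L (g + (N + c)) * ((a : ℝ) / q)) := by
    rw [← prod_range_add (fun c => ps s t (fr b L (g + c) * ((a : ℝ) / q))), ← hK]
  rw [h2]
  exact mul_le_of_le_one_right (prod_nonneg fun _ _ => ps_nonneg _ _ _)
    (prod_le_one (fun _ _ => ps_nonneg _ _ _) (fun _ _ => ps_le_one _ _ _))

end Pool.Agent.K3h54.PM.G1
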