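import Pool.Agent.K3h87.PM.G10

/-! # Brick G10 of the project PM (proof in `Pool.Agent.K3h87.PM.G10`) -/

namespace Pool.Agent.K3h54.PM.G10

theorem main : Pool.Agent.K3h54.PM.StG10 := Pool.Agent.K3h87.PM.main

end Pool.Agent.K3h54.PM.G10
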