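import Pool.Agent.K3h54.PM.Stm

/-!
# Brick G2 of project PM (helper54), by helper45: large sieve and square moduli for the 4th power of a block
(port of `Pool.Agent.W342.PW2`; the positions `c < g` carry no digit)
-/

set_option autoImplicit false
set_option linter.unusedSectionVars false

namespace Pool.Agent.K3h54.PM.G2

open Finset Pool.Agent.Helper112
open Pool.Agent.W89.PW
open Pool.Agent.H39R3.PB (ph pts ph_nonneg ph_add_int dilate coprime_b)
open Pool.Agent.H39R3.PS (EM)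
open Pool.Agent.H944R3.PB (DD ph_eq digits_zero sum_fr_int)
open Pool.Agent.H245R3.PSSA (pars dilate_all)
open Pool.Agent.W342.PW2

/-- the number of factors -/
lemma card_ge (J g : ℕ) : ((range J).filter (fun c => g ≤ c)).card = J - g := by
  have h : (range J).filter (fun c => g ≤ c) = Ico g J := by
    ext c
    simp only [mem_filter, mem_range, mem_Ico]
    tauto
  rw [h, Nat.card_Ico]

lemma prod_if (J g : ℕ) (f : ℕ → ℝ) :
    ∏ c ∈ range J, (if c < g then 1 else f c) = ∏ c ∈ (range J).filter (fun c => g ≤ c), f c := by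
  rw [prod_filter]
  apply prod_congr rfl
  intro c _
  by_cases h : c < g
  · rw [if_pos h, if_neg (by omega)]
  · rw [if_neg h, if_pos (by omega)]

lemma FG_nonneg (b s t g L J : ℕ) (x : ℝ) : 0 ≤ FG b s t g L J x :=
  prod_nonneg fun _ _ => ps_nonneg _ _ _

lemma FG_add_int (b s t g L J : ℕ) (x : ℝ) (k : ℤ) : FG b s t g L J (x + k) = FG b s t g L J x := by
  unfold FG
  apply prod_congr rfl
  intro j _
  have : (fr b L j : ℝ) * (x + k) = fr b L j * x + ((fr b L j * k : ℤ) : ℝ) := by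
    push_cast; ring
  rw [this, ps_add_int]

lemma FG_scale {b s t g L M J : ℕ} (hM : M ≤ L) (hJ : J ≤ M + 1) (x : ℝ) :
    FG b s t g L J x = FG b s t g M J ((b : ℝ) ^ (L - M) * x) := by
  unfold FG
  apply prod_congr rfl
  intro j hj
  rw [mem_filter, mem_range] at hj
  rw [fr_scale' hM (show j ≤ M by omega)]
  congr 1
  push_cast
  ring

/-- the factor of one position -/
noncomputable def DG (s t g c : ℕ) (x : ℝ) : ℂ := if c < g then 1 else (DD s x * DD t x) ^ 2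

/-- the weight of a digit -/
def wg (s t g c z : ℕ) : ℕ := if c < g then (if z = 0 then 1 else 0) else w2 s t z

lemma ee_zero : ee 0 = 1 := by
  unfold ee
  simp

lemma DG_expand (b s t g c : ℕ) (hb : 1 ≤ b) (hs : 1 ≤ s) (ht : 1 ≤ t) (hst : s + t = b + 1)
    (x : ℝ) : DG s t g c x = ∑ z ∈ range (2 * b - 1), (wg s t g c z : ℂ) * ee (z * x) := by
  unfold DG wg
  by_cases h : c < g
  · simp only [if_pos h]
    rw [sum_eq_single 0]
    · simp [ee_zero]
    · intro z _ hz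
      simp [hz]
    · intro h0
      exact absurd (mem_range.2 (by omega)) h0
  · simp only [if_neg h]
    exact D4_expand b s t hs ht hst x

/-- the energy of a position -/
lemma energy_pos (b s t g c : ℕ) (hb : 1 ≤ b) :
    ∑ z ∈ range (2 * b - 1), ((wg s t g c z : ℕ) : ℝ) ^ 2 = if c < g then 1 else E4 b s t := by
  unfold wg
  by_cases h : c < g
  · simp only [if_pos h]
    rw [sum_eq_single 0]
    · simp
    · intro z _ hz
      simp [hz]
    · intro h0
      exact absurd (mem_range.2 (by omega)) h0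
  · simp only [if_neg h]
    rfl

/-- the exponential sum -/
lemma SG_expand (b s t g : ℕ) (hb : 1 ≤ b) (hs : 1 ≤ s) (ht : 1 ≤ t) (hst : s + t = b + 1) (M : ℕ)
    (x : ℝ) :
    ∏ c : Fin (M + 1), DG s t g c (fr b M c * x) =
      ∑ z ∈ Fintype.piFinset (fun _ : Fin (M + 1) => range (2 * b - 1)),
        ((∏ c : Fin (M + 1), wg s t g c (z c) : ℕ) : ℂ) * ee (nn b M z * x) := by
  simp_rw [fun c : Fin (M + 1) => DG_expand b s t g c hb hs ht hst (fr b M c * x)]
  rw [prod_univ_sum]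
  apply sum_congr rfl
  intro z _
  rw [prod_mul_distrib]
  push_cast
  congr 1
  unfold nn
  push_cast
  rw [sum_mul]
  induction (univ : Finset (Fin (M + 1))) using Finset.induction_on with
  | empty => simp [ee]
  | insert a t ha ih =>
    rw [prod_insert ha, sum_insert ha, ls_ee_add, ih]
    congr 2
    ring

/-- the energy -/
lemma energy (b s t g M : ℕ) (hb : 1 ≤ b) :
    ∑ z ∈ Fintype.piFinset (fun _ : Fin (M + 1) => range (2 * b - 1)),
      ((∏ c : Fin (M + 1), wg s t g c (z c) : ℕ) : ℝ) ^ 2 = E4 b s t ^ (M + 1 - g) := by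
  have h3 : ∀ z : Fin (M + 1) → ℕ, ((∏ c : Fin (M + 1), wg s t g c (z c) : ℕ) : ℝ) ^ 2 =
      ∏ c : Fin (M + 1), ((wg s t g c (z c) : ℝ)) ^ 2 := by
    intro z
    push_cast
    rw [← prod_pow]
  simp_rw [h3]
  rw [← prod_univ_sum (fun _ : Fin (M + 1) => range (2 * b - 1))
    (fun c j => ((wg s t g c j : ℝ)) ^ 2)]
  simp_rw [fun c : Fin (M + 1) => energy_pos b s t g c hb]
  rw [Fin.prod_univ_eq_prod_range (fun c => if c < g then (1 : ℝ) else E4 b s t) (M + 1),
    prod_if (M + 1) g (fun _ => E4 b s t), prod_const, card_ge]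

/-- large sieve for the block, after rescaling -/
lemma block_ls (b s t g : ℕ) (hb : 2 ≤ b) (hs : 1 ≤ s) (ht : 1 ≤ t) (hst : s + t = b + 1)
    (M F : ℕ) :
    ∑ f ∈ Icc 1 F, ∑ a ∈ (range f).filter (fun a => a.Coprime f),
      ‖∏ c : Fin (M + 1), DG s t g c (fr b M c * ((a : ℝ) / f))‖ ^ 2 ≤
      6 * ((2 * b ^ (2 * M + 3) : ℕ) + (F : ℝ) ^ 2) * E4 b s t ^ (M + 1 - g) := by
  classical
  set P := Fintype.piFinset (fun _ : Fin (M + 1) => range (2 * b - 1)) with hP
  set W : (Fin (M + 1) → ℕ) → ℝ := fun z => ((∏ c : Fin (M + 1), wg s t g c (z c) : ℕ) : ℝ) with hW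
  set α : ℕ → ℂ := fun n => ∑ z ∈ P.filter (fun z => nn b M z + 1 = n), (W z : ℂ) with hα
  set N := 2 * b ^ (2 * M + 3) with hN
  have hs18 : ∀ z ∈ P, ∀ c, z c ≤ 2 * (b - 1) := by
    intro z hz c
    rw [hP, Fintype.mem_piFinset] at hz
    exact range_le b _ (hz c)
  have hmaps : ∀ z ∈ P, nn b M z + 1 ∈ Icc 1 N := by
    intro z hz
    rw [mem_Icc]
    exact ⟨by omega, nn_le b hb M z (hs18 z hz)⟩
  have key := additive_large_sieve N F α
  have h1 : ∑ n ∈ Icc 1 N, ‖α n‖ ^ 2 = E4 b s t ^ (M + 1 - g) := by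
    have h2 : ∀ n, ‖α n‖ ^ 2 = ∑ z ∈ P.filter (fun z => nn b M z + 1 = n), W z ^ 2 := by
      intro n
      rw [hα]
      simp only
      rcases (P.filter (fun z => nn b M z + 1 = n)).eq_empty_or_nonempty with h | ⟨z, hz⟩
      · rw [h]; simp
      · have : P.filter (fun z => nn b M z + 1 = n) = {z} := by
          apply eq_singleton_iff_unique_mem.2 ⟨hz, ?_⟩
          intro z' hz'
          rw [mem_filter] at hz hz'
          exact nn_inj b hb M z' z (hs18 z' hz'.1) (hs18 z hz.1) (by omega)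
        rw [this]
        simp
    simp_rw [h2]
    rw [sum_fiberwise_of_maps_to hmaps (fun z => W z ^ 2)]
    exact energy b s t g M (by omega)
  rw [h1] at key
  refine le_trans (le_of_eq ?_) key
  apply sum_congr rfl
  intro f _
  apply sum_congr rfl
  intro a _
  congr 1
  rw [SG_expand b s t g (by omega) hs ht hst]
  have h4 : ∑ n ∈ Icc 1 N, α n * ee (n * a / f) =
      ee ((a : ℝ) / f) * ∑ z ∈ P, ((∏ c : Fin (M + 1), wg s t g c (z c) : ℕ) : ℂ) *
        ee (nn b M z * ((a : ℝ) / f)) := by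
    rw [hα]
    simp only
    simp_rw [sum_mul]
    rw [← sum_fiberwise_of_maps_to hmaps, mul_sum]
    apply sum_congr rfl
    intro n _
    rw [mul_sum]
    apply sum_congr rfl
    intro z hz
    rw [mem_filter] at hz
    rw [← hz.2, hW]
    have : ee (((nn b M z + 1 : ℕ) : ℝ) * a / f) =
        ee ((a : ℝ) / f) * ee (nn b M z * ((a : ℝ) / f)) := by
      rw [← ls_ee_add]
      congr 1
      push_cast
      ring
    rw [this]
    push_cast
    ring
  rw [h4, norm_mul, ls_norm_ee, one_mul]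

/-- the function of the block as a norm square -/
lemma block_eq (b s t g : ℕ) (hs : 1 ≤ s) (ht : 1 ≤ t) (M : ℕ) (x : ℝ) :
    FG b s t g M (M + 1) x ^ 4 =
      ‖∏ c : Fin (M + 1), DG s t g c (fr b M c * x)‖ ^ 2 /
        (((s : ℝ) * t) ^ 4) ^ (M + 1 - g) := by
  have hs0 : (s : ℝ) ≠ 0 := by
    have : s ≠ 0 := by omega
    exact_mod_cast this
  have ht0 : (t : ℝ) ≠ 0 := by
    have : t ≠ 0 := by omega
    exact_mod_cast this
  have h1 : ‖∏ c : Fin (M + 1), DG s t g c (fr b M c * x)‖ ^ 2 =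
      ∏ c ∈ (range (M + 1)).filter (fun c => g ≤ c),
        (ps s t (fr b M c * x) ^ 4 * ((s : ℝ) * t) ^ 4) := by
    rw [norm_prod, ← prod_pow, ← prod_if,
      ← Fin.prod_univ_eq_prod_range
        (fun c => (if c < g then (1 : ℝ) else (ps s t (fr b M c * x) ^ 4 * ((s : ℝ) * t) ^ 4))) (M + 1)]
    apply prod_congr rfl
    intro c _
    unfold DG
    by_cases h : (c : ℕ) < g
    · rw [if_pos h, if_pos h, norm_one, one_pow]
    · rw [if_neg h, if_neg h, norm_pow, ← pow_mul, norm_mul]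
      unfold ps
      rw [ph_eq, ph_eq, ← mul_pow]
      congr 1
      field_simp
  rw [h1, prod_mul_distrib, prod_const, card_ge, prod_pow,
    mul_div_cancel_right₀ _ (pow_ne_zero _ (pow_ne_zero _ (mul_ne_zero hs0 ht0)))]
  rfl

/-- removing the truncated subtraction -/
lemma pow_sub_le {x : ℝ} (hx : 0 < x) (J g : ℕ) : x ^ (J - g) ≤ (1 + 1 / x) ^ g * x ^ J := by
  have h1 : J = (J - g) + min J g := by omega
  have h2 : x ^ J = x ^ (J - g) * x ^ (min J g) := by rw [← pow_add, ← h1]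
  have h3 : (1 : ℝ) ≤ 1 + 1 / x := by
    have : 0 < 1 / x := by positivity
    linarith
  have h4 : (1 + 1 / x) ^ (min J g) ≤ (1 + 1 / x) ^ g := pow_le_pow_right₀ h3 (by omega)
  have h5 : (1 : ℝ) ≤ (1 + 1 / x) ^ (min J g) * x ^ (min J g) := by
    rw [← mul_pow]
    apply one_le_pow₀
    have : (1 + 1 / x) * x = x + 1 := by field_simp
    rw [this]
    linarith
  have h6 : (1 : ℝ) ≤ (1 + 1 / x) ^ g * x ^ (min J g) :=
    h5.trans (mul_le_mul_of_nonneg_right h4 (by positivity))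
  rw [h2]
  calc x ^ (J - g) = x ^ (J - g) * 1 := (mul_one _).symm
    _ ≤ x ^ (J - g) * ((1 + 1 / x) ^ g * x ^ (min J g)) :=
      mul_le_mul_of_nonneg_left h6 (by positivity)
    _ = _ := by ring

theorem ls (b s t g : ℕ) (hb : 2 ≤ b) (hs : 1 ≤ s) (ht : 1 ≤ t) (hst : s + t = b + 1)
    (L J Q : ℕ) (hJ : 1 ≤ J) (hJL : J ≤ L) (h1 : Q ≤ b ^ J) (h2 : b ^ J ≤ b * Q) :
    pts b Q (fun α => FG b s t g L J α ^ 4) ≤
      12 * ((b : ℝ) ^ 3 + 2) * Q * (b : ℝ) ^ J * m4 s t ^ (J - g) := by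
  obtain ⟨M, rfl⟩ : ∃ M, J = M + 1 := ⟨J - 1, by omega⟩
  have hb0 : 0 < b := by omega
  have hbR : (0 : ℝ) < b := by exact_mod_cast hb0
  have hsR : (0 : ℝ) < s := by exact_mod_cast hs
  have htR : (0 : ℝ) < t := by exact_mod_cast ht
  have hQ : 1 ≤ Q := by
    have : 0 < b ^ (M + 1) := by positivity
    by_contra hcon
    have h3 : Q = 0 := by omega
    rw [h3, mul_zero] at h2
    omega
  set F : ℝ → ℝ := fun x => FG b s t g M (M + 1) x ^ 4 with hF
  have hper : ∀ (x : ℝ) (n : ℤ), F (x + n) = F x := by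
    intro x n
    simp only [hF, FG_add_int]
  have e1 : pts b Q (fun α => FG b s t g L (M + 1) α ^ 4) = pts b Q F := by
    unfold pts
    apply sum_congr rfl
    intro q hq
    rw [mem_filter] at hq
    rw [← dilate (coprime_b hq.2) (L - M) F hper]
    apply sum_congr rfl
    intro a _
    simp only [hF]
    rw [FG_scale (L := L) (M := M) (by omega) (by omega)]
  rw [e1]
  have e2 : pts b Q F ≤
      ∑ f ∈ Icc 1 (2 * Q), ∑ a ∈ (range f).filter (fun a => a.Coprime f), F ((a : ℝ) / f) := by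
    unfold pts
    apply sum_le_sum_of_subset_of_nonneg
    · intro q hq
      rw [mem_filter, mem_Ico] at hq
      rw [mem_Icc]; omega
    · intro q _ _
      exact sum_nonneg fun a _ => pow_nonneg (FG_nonneg _ _ _ _ _ _ _) _
  refine e2.trans ?_
  have e3 : ∑ f ∈ Icc 1 (2 * Q), ∑ a ∈ (range f).filter (fun a => a.Coprime f), F ((a : ℝ) / f) =
      (∑ f ∈ Icc 1 (2 * Q), ∑ a ∈ (range f).filter (fun a => a.Coprime f),
      ‖∏ c : Fin (M + 1), DG s t g c (fr b M c * ((a : ℝ) / f))‖ ^ 2) /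
        (((s : ℝ) * t) ^ 4) ^ (M + 1 - g) := by
    rw [sum_div]
    apply sum_congr rfl
    intro f _
    rw [sum_div]
    apply sum_congr rfl
    intro a _
    simp only [hF]
    exact block_eq b s t g hs ht M _
  rw [e3, div_le_iff₀ (by positivity)]
  refine (block_ls b s t g hb hs ht hst M (2 * Q)).trans ?_
  have h3 : (b : ℝ) ^ M ≤ Q := by
    have : b ^ M ≤ Q := by
      have h4 : b ^ (M + 1) = b * b ^ M := by ring
      rw [h4] at h2
      exact Nat.le_of_mul_le_mul_left h2 hb0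
    exact_mod_cast this
  have h4 : (Q : ℝ) ≤ (b : ℝ) ^ (M + 1) := by exact_mod_cast h1
  have hQ0 : (0 : ℝ) < Q := by exact_mod_cast hQ
  have h5 : (((2 * b ^ (2 * M + 3) : ℕ)) : ℝ) + ((2 * Q : ℕ) : ℝ) ^ 2 ≤
      (2 * (b : ℝ) ^ 3 + 4) * (Q : ℝ) ^ 2 := by
    push_cast
    have : (b : ℝ) ^ (2 * M + 3) = (b : ℝ) ^ 3 * ((b : ℝ) ^ M) ^ 2 := by ring
    rw [this]
    have h6 : ((b : ℝ) ^ M) ^ 2 ≤ (Q : ℝ) ^ 2 := by gcongr
    have h7 : 2 * ((b : ℝ) ^ 3 * ((b : ℝ) ^ M) ^ 2) ≤ 2 * ((b : ℝ) ^ 3 * (Q : ℝ) ^ 2) := by gcongr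
    linarith
  have hE0 : 0 ≤ E4 b s t := E4_nonneg _ _ _
  have hm : m4 s t * ((s : ℝ) * t) ^ 4 = E4 b s t := by
    rw [m4_eq b s t hs ht hst]
    field_simp
  calc 6 * (((2 * b ^ (2 * M + 3) : ℕ) : ℝ) + ((2 * Q : ℕ) : ℝ) ^ 2) * E4 b s t ^ (M + 1 - g)
      ≤ 6 * ((2 * (b : ℝ) ^ 3 + 4) * (Q : ℝ) ^ 2) * E4 b s t ^ (M + 1 - g) := by gcongr
    _ = 6 * (2 * (b : ℝ) ^ 3 + 4) * (Q : ℝ) * E4 b s t ^ (M + 1 - g) * (Q : ℝ) := by ring
    _ ≤ 6 * (2 * (b : ℝ) ^ 3 + 4) * (Q : ℝ) * E4 b s t ^ (M + 1 - g) * (b : ℝ) ^ (M + 1) := by gcongr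
    _ = 12 * ((b : ℝ) ^ 3 + 2) * Q * (b : ℝ) ^ (M + 1) * m4 s t ^ (M + 1 - g) *
        (((s : ℝ) * t) ^ 4) ^ (M + 1 - g) := by
      rw [← hm, mul_pow]
      ring

theorem sq4 (b s t g : ℕ) (hb : 2 ≤ b) (hs : 1 ≤ s) (ht : 1 ≤ t) (hst : s + t = b + 1)
    (L J m : ℕ) (hJL : J ≤ L) (hM : b ^ (2 * J + 2) ≤ m) (hc : m.Coprime b) :
    EM m (fun α => FG b s t g L J α ^ 4) ≤ m4 s t ^ (J - g) := by
  classical
  have hb0 : 0 < b := by omega
  have hbR : (0 : ℝ) < b := by exact_mod_cast hb0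
  have hsR : (0 : ℝ) < s := by exact_mod_cast hs
  have htR : (0 : ℝ) < t := by exact_mod_cast ht
  have hm0 : 0 < m := lt_of_lt_of_le (by positivity) hM
  have hmR : (0 : ℝ) < m := by exact_mod_cast hm0
  rcases Nat.eq_zero_or_pos J with hJ0 | hJ
  · subst hJ0
    unfold EM FG
    simp only [range_zero, filter_empty, prod_empty, one_pow, sum_const, card_range, nsmul_eq_mul,
      mul_one, Nat.zero_sub, pow_zero]
    rw [div_self hmR.ne']
  obtain ⟨M, rfl⟩ : ∃ M, J = M + 1 := ⟨J - 1, by omega⟩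
  set F : ℝ → ℝ := fun x => FG b s t g M (M + 1) x ^ 4 with hF
  have hper : ∀ (x : ℝ) (n : ℤ), F (x + n) = F x := by
    intro x n
    simp only [hF, FG_add_int]
  have e1 : ∑ a ∈ range m, FG b s t g L (M + 1) ((a : ℝ) / m) ^ 4 =
      ∑ a ∈ range m, F ((a : ℝ) / m) := by
    rw [← dilate_all hc (L - M) F hper]
    apply sum_congr rfl
    intro a _
    simp only [hF]
    rw [FG_scale (L := L) (M := M) (by omega) (by omega)]
  unfold EM
  rw [e1]
  set P := Fintype.piFinset (fun _ : Fin (M + 1) => range (2 * b - 1)) with hP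
  set W : (Fin (M + 1) → ℕ) → ℝ := fun z => ((∏ c : Fin (M + 1), wg s t g c (z c) : ℕ) : ℝ) with hW
  have hs18 : ∀ z ∈ P, ∀ c, z c ≤ 2 * (b - 1) := by
    intro z hz c
    rw [hP, Fintype.mem_piFinset] at hz
    exact range_le b _ (hz c)
  have e2 : ∑ a ∈ range m, F ((a : ℝ) / m) =
      (∑ a ∈ range m, ‖∑ z ∈ P, (W z : ℂ) * ee ((nn b M z : ℝ) * ((a : ℝ) / m))‖ ^ 2) /
        (((s : ℝ) * t) ^ 4) ^ (M + 1 - g) := by
    rw [sum_div]
    apply sum_congr rfl
    intro a _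
    simp only [hF]
    rw [block_eq b s t g hs ht M, SG_expand b s t g (by omega) hs ht hst]
    simp only [hW, hP, Complex.ofReal_natCast]
  rw [e2, pars P m hm0 W (fun z => nn b M z)]
  have hlt : ∀ z ∈ P, nn b M z < m := by
    intro z hz
    have h1 := nn_le b hb M z (hs18 z hz)
    have h2 : 2 * b ^ (2 * M + 3) ≤ b ^ (2 * (M + 1) + 2) := by
      have : b ^ (2 * (M + 1) + 2) = b * b ^ (2 * M + 3) := by ring
      rw [this]
      exact Nat.mul_le_mul_right _ hb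
    omega
  have e3 : ∑ z ∈ P, ∑ z' ∈ P, (if (m : ℤ) ∣ ((nn b M z : ℕ) : ℤ) - ((nn b M z' : ℕ) : ℤ)
      then W z * W z' else 0) = ∑ z ∈ P, W z ^ 2 := by
    apply sum_congr rfl
    intro z hz
    have h1 : ∀ z' ∈ P, (if (m : ℤ) ∣ ((nn b M z : ℕ) : ℤ) - ((nn b M z' : ℕ) : ℤ)
        then W z * W z' else 0) = if z = z' then W z * W z' else 0 := by
      intro z' hz'
      have h2 : ((m : ℤ) ∣ ((nn b M z : ℕ) : ℤ) - ((nn b M z' : ℕ) : ℤ)) ↔ z = z' := by
        constructor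
        · intro hd
          have h3 := hlt z hz
          have h4 := hlt z' hz'
          have h5 : ((nn b M z : ℕ) : ℤ) - ((nn b M z' : ℕ) : ℤ) = 0 := by
            refine Int.eq_zero_of_abs_lt_dvd hd ?_
            rw [abs_lt]
            constructor <;> omega
          exact nn_inj b hb M z z' (hs18 z hz) (hs18 z' hz') (by omega)
        · rintro rfl
          simp
      by_cases h6 : z = z'
      · rw [if_pos h6, if_pos (h2.2 h6)]
      · rw [if_neg h6, if_neg (fun h => h6 (h2.1 h))]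
    rw [sum_congr rfl h1, sum_ite_eq, if_pos hz, sq]
  rw [e3]
  have e4 : ∑ z ∈ P, W z ^ 2 = E4 b s t ^ (M + 1 - g) := energy b s t g M (by omega)
  rw [e4, m4_eq b s t hs ht hst, div_pow]
  apply le_of_eq
  field_simp

/-- **Brick G2.** -/
theorem main : StG2 := by
  intro b s t g hb hs ht hst
  have hm : 0 < m4 s t := Pool.Agent.W822.PWBig.m4_pos hs ht
  have hK : (0 : ℝ) < (1 + 1 / m4 s t) ^ g := by positivity
  have hK1 : (1 : ℝ) ≤ 12 * ((b : ℝ) ^ 3 + 2) := by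
    have : (0 : ℝ) ≤ (b : ℝ) ^ 3 := by positivity
    linarith
  refine ⟨12 * ((b : ℝ) ^ 3 + 2) * (1 + 1 / m4 s t) ^ g, by positivity, ?_, ?_⟩
  · intro L J Q hJ hJL h1 h2
    refine (ls b s t g hb hs ht hst L J Q hJ hJL h1 h2).trans ?_
    rw [mul_pow]
    have h3 := mul_le_mul_of_nonneg_left (pow_sub_le hm J g)
      (show 0 ≤ 12 * ((b : ℝ) ^ 3 + 2) * Q * (b : ℝ) ^ J by positivity)
    refine h3.trans (le_of_eq ?_)
    ring
  · intro L J M hJL hM hc
    refine (sq4 b s t g hb hs ht hst L J M hJL hM hc).trans ((pow_sub_le hm J g).trans ?_)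
    have h3 : (0 : ℝ) ≤ (1 + 1 / m4 s t) ^ g * m4 s t ^ J := by positivity
    calc (1 + 1 / m4 s t) ^ g * m4 s t ^ J = 1 * ((1 + 1 / m4 s t) ^ g * m4 s t ^ J) :=
          (one_mul _).symm
      _ ≤ 12 * ((b : ℝ) ^ 3 + 2) * ((1 + 1 / m4 s t) ^ g * m4 s t ^ J) :=
        mul_le_mul_of_nonneg_right hK1 h3
      _ = _ := by ring

end Pool.Agent.K3h54.PM.G2
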