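import Pool.Agent.K3h54.PM.Stm
import Pool.Agent.W139.PX.D1

/-!
# PM brick G3: the alternating majorant, with no digits at the positions `c < g`
-/

set_option autoImplicit false

namespace Pool.Agent.K3h54.PM.G3

open Finset Pool.Agent.Helper112 Pool.Agent.W89.PW Pool.Agent.W139.PX
open Pool.Agent.H39R3.PB (ph pts apts ph_nonneg ph_le_one pts_mono pts_le_apts pts_add pts_mul_left)
open Pool.Agent.H39R3.PS (EM)
open Pool.Agent.W139.PW (apts_sq)

/-- dropping the positions `c < g` costs at most the factor `b ^ g` -/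
lemma prod_filter_le {b g : ℕ} (hb : 2 ≤ b) (B : Finset ℕ) (f : ℕ → ℕ) (hf1 : ∀ c, 1 ≤ f c) (hfb : ∀ c, f c ≤ b) :
    ∏ c ∈ B.filter (fun c => g ≤ c), (1 / (f c : ℝ)) ≤ (b : ℝ) ^ g * ∏ c ∈ B, (1 / (f c : ℝ)) := by
  have hb0 : (0 : ℝ) < b := by exact_mod_cast (by omega : 0 < b)
  have hb1 : (1 : ℝ) ≤ b := by exact_mod_cast (by omega : 1 ≤ b)
  rw [← prod_filter_mul_prod_filter_not B (fun c => g ≤ c) (fun c => (1 / (f c : ℝ)))]
  have h1 : (1 / (b : ℝ)) ^ g ≤ ∏ c ∈ B.filter (fun c => ¬ g ≤ c), (1 / (f c : ℝ)) := by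
    have hcard : (B.filter (fun c => ¬ g ≤ c)).card ≤ g := by
      calc (B.filter (fun c => ¬ g ≤ c)).card ≤ (range g).card := by
            apply card_le_card
            intro c hc
            rw [mem_filter] at hc
            rw [mem_range]
            omega
        _ = g := card_range g
    calc (1 / (b : ℝ)) ^ g ≤ (1 / (b : ℝ)) ^ (B.filter (fun c => ¬ g ≤ c)).card := by
          apply pow_le_pow_of_le_one (by positivity) _ hcard
          rw [div_le_one hb0]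
          exact hb1
      _ = ∏ c ∈ B.filter (fun c => ¬ g ≤ c), (1 / (b : ℝ)) := by rw [prod_const]
      _ ≤ _ := by
          apply prod_le_prod
          · intro c _
            positivity
          · intro c _
            have h2 : (0 : ℝ) < f c := by exact_mod_cast hf1 c
            apply one_div_le_one_div_of_le h2
            exact_mod_cast hfb c
  have h3 : 0 ≤ ∏ c ∈ B.filter (fun c => g ≤ c), (1 / (f c : ℝ)) :=
    prod_nonneg fun c _ => by positivity
  have h4 : (b : ℝ) ^ g * (1 / (b : ℝ)) ^ g = 1 := by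
    rw [← mul_pow, mul_one_div_cancel hb0.ne', one_pow]
  calc ∏ c ∈ B.filter (fun c => g ≤ c), (1 / (f c : ℝ)) =
        (b : ℝ) ^ g * ((∏ c ∈ B.filter (fun c => g ≤ c), (1 / (f c : ℝ))) * (1 / (b : ℝ)) ^ g) := by
          generalize ∏ c ∈ B.filter (fun c => g ≤ c), (1 / (f c : ℝ)) = X
          calc X = X * ((b : ℝ) ^ g * (1 / (b : ℝ)) ^ g) := by rw [h4, mul_one]
            _ = _ := by ring
    _ ≤ _ := by
        apply mul_le_mul_of_nonneg_left _ (by positivity)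
        exact mul_le_mul_of_nonneg_left h1 h3

theorem main : StG3 := by
  intro b s t g H hb hs ht hsb htb hH0 hH1 hH
  have hb0 : (0 : ℝ) < b := by exact_mod_cast (by omega : 0 < b)
  refine ⟨(b : ℝ) ^ g * (1 / H ^ 3), by positivity, ?_⟩
  intro L J K i T hK hT
  have hT' : ∀ n : ℕ, 1 ≤ n → n ≤ b ^ (2 * (L + 1) + 1) → (n.divisors.card : ℝ) ≤ T := by
    intro n h1 h2
    exact hT n h1 (by rwa [show 2 * (L + 1) + 1 = 2 * L + 3 by ring] at h2)
  set B := (SS L J K i).filter (fun c => g ≤ c) with hB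
  have hBL : B ⊆ range L := (filter_subset _ _).trans (SS_sub _ _ _ _)
  set B' := B.map (addRightEmbedding 1) with hB'
  have hB'L := map_sub L B hBL
  -- sizes
  have halt1 : ∀ s t : ℕ, 1 ≤ s → 1 ≤ t → ∀ c, 1 ≤ alt s t c := by
    intro s t hs ht c
    unfold alt
    split_ifs <;> assumption
  have halt2 : ∀ s t : ℕ, s ≤ b → t ≤ b → ∀ c, alt s t c ≤ b := by
    intro s t hs ht c
    unfold alt
    split_ifs <;> assumption
  -- product bounds
  have hpb : ∀ s t : ℕ, 1 ≤ s → 1 ≤ t → s ≤ b → t ≤ b → H ^ 2 = 1 / ((s : ℝ) * t) →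
      ∏ c ∈ B', (1 / ((alt s t (c - 1) : ℕ) : ℝ)) ≤ (b : ℝ) ^ g * (1 / H ^ 3) * H ^ (L - K) := by
    intro s t hs ht hsb htb hH
    rw [hB', prod_shift' B (fun c => (1 / (alt s t c : ℝ)))]
    obtain ⟨n, hn1, hn2⟩ := prod_alt_le s t L J K i hs ht hK
    refine (prod_filter_le (g := g) hb (SS L J K i) (alt s t) (halt1 s t hs ht) (halt2 s t hsb htb)).trans ?_
    rw [mul_assoc]
    apply mul_le_mul_of_nonneg_left _ (by positivity)
    refine hn2.trans ?_
    rw [← hH, ← pow_mul]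
    have h1 : H ^ (2 * n + 3) ≤ H ^ (L - K) := pow_le_pow_of_le_one hH0.le hH1 hn1
    rw [div_mul_eq_mul_div, one_mul, le_div_iff₀ (by positivity), ← pow_add]
    exact h1
  have hp1 := hpb s t hs ht hsb htb hH
  have hp2 := hpb t s ht hs htb hsb (by rw [hH, mul_comm])
  have hpt : ∀ α : ℝ, ∏ c ∈ B, ps s t (fr b L c * α) ≤
      (1 / 2) * ∏ c ∈ B', ph (alt s t (c - 1)) (Pool.Agent.H39R3.PB.fr b (L + 1) c * α) ^ 2 +
      (1 / 2) * ∏ c ∈ B', ph (alt t s (c - 1)) (Pool.Agent.H39R3.PB.fr b (L + 1) c * α) ^ 2 := by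
    intro α
    have e1 : ∏ c ∈ B, ps s t (fr b L c * α) =
        (∏ c ∈ B', ph (alt s t (c - 1)) (Pool.Agent.H39R3.PB.fr b (L + 1) c * α)) *
        ∏ c ∈ B', ph (alt t s (c - 1)) (Pool.Agent.H39R3.PB.fr b (L + 1) c * α) := by
      rw [← prod_mul_distrib, hB', ← prod_shift L B (fun c x => ph (alt s t c) x * ph (alt t s c) x) α]
      apply prod_congr rfl
      intro c _
      unfold ps alt
      split_ifs
      · rfl
      · rw [mul_comm]
    rw [e1, prod_pow, prod_pow]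
    nlinarith [sq_nonneg ((∏ c ∈ B', ph (alt s t (c - 1)) (Pool.Agent.H39R3.PB.fr b (L + 1) c * α)) -
      ∏ c ∈ B', ph (alt t s (c - 1)) (Pool.Agent.H39R3.PB.fr b (L + 1) c * α))]
  constructor
  · intro Q
    have h1 := apts_sq hb (L + 1) Q T B' hB'L (fun c => alt s t (c - 1)) (fun c _ => halt2 s t hsb htb _)
      (fun c _ => halt1 s t hs ht _) hT'
    have h2 := apts_sq hb (L + 1) Q T B' hB'L (fun c => alt t s (c - 1)) (fun c _ => halt2 t s htb hsb _)
      (fun c _ => halt1 t s ht hs _) hT'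
    have hpos : ∀ (s : ℕ → ℕ) (α : ℝ), 0 ≤ ∏ c ∈ B', ph (s c) (Pool.Agent.H39R3.PB.fr b (L + 1) c * α) ^ 2 :=
      fun s α => prod_nonneg fun _ _ => sq_nonneg _
    refine (pts_mono hpt).trans ?_
    rw [pts_add, pts_mul_left, pts_mul_left]
    have h3 := (pts_le_apts (b := b) (Q := Q) (hpos (fun c => alt s t (c - 1)))).trans h1
    have h4 := (pts_le_apts (b := b) (Q := Q) (hpos (fun c => alt t s (c - 1)))).trans h2
    have h5 : 2 * (Q : ℝ) * (Q * ∏ c ∈ B', (1 / ((alt s t (c - 1) : ℕ) : ℝ)) + T) ≤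
        2 * Q * (Q * ((b : ℝ) ^ g * (1 / H ^ 3) * H ^ (L - K)) + T) := by gcongr
    have h6 : 2 * (Q : ℝ) * (Q * ∏ c ∈ B', (1 / ((alt t s (c - 1) : ℕ) : ℝ)) + T) ≤
        2 * Q * (Q * ((b : ℝ) ^ g * (1 / H ^ 3) * H ^ (L - K)) + T) := by gcongr
    linarith
  · intro P hP
    have h1 := EM_sq hb (L + 1) P T B' hB'L (fun c => alt s t (c - 1)) (fun c _ => halt2 s t hsb htb _)
      (fun c _ => halt1 s t hs ht _) hP hT'
    have h2 := EM_sq hb (L + 1) P T B' hB'L (fun c => alt t s (c - 1)) (fun c _ => halt2 t s htb hsb _)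
      (fun c _ => halt1 t s ht hs _) hP hT'
    refine (sum_le_sum fun m _ => Pool.Agent.W139.PX.EM_mono _ _ _ hpt).trans ?_
    have e1 : ∀ m : ℕ, EM (m ^ 2) (fun α =>
        (1 / 2) * ∏ c ∈ B', ph (alt s t (c - 1)) (Pool.Agent.H39R3.PB.fr b (L + 1) c * α) ^ 2 +
        (1 / 2) * ∏ c ∈ B', ph (alt t s (c - 1)) (Pool.Agent.H39R3.PB.fr b (L + 1) c * α) ^ 2) =
        (1 / 2) * EM (m ^ 2) (fun α =>
          ∏ c ∈ B', ph (alt s t (c - 1)) (Pool.Agent.H39R3.PB.fr b (L + 1) c * α) ^ 2) +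
        (1 / 2) * EM (m ^ 2) (fun α =>
          ∏ c ∈ B', ph (alt t s (c - 1)) (Pool.Agent.H39R3.PB.fr b (L + 1) c * α) ^ 2) := by
      intro m
      unfold EM
      rw [sum_add_distrib, ← mul_sum, ← mul_sum]
      ring
    simp only [e1]
    rw [sum_add_distrib, ← mul_sum, ← mul_sum]
    have h5 : (P : ℝ) * ∏ c ∈ B', (1 / ((alt s t (c - 1) : ℕ) : ℝ)) + T ≤
        P * ((b : ℝ) ^ g * (1 / H ^ 3) * H ^ (L - K)) + T := by gcongr
    have h6 : (P : ℝ) * ∏ c ∈ B', (1 / ((alt t s (c - 1) : ℕ) : ℝ)) + T ≤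
        P * ((b : ℝ) ^ g * (1 / H ^ 3) * H ^ (L - K)) + T := by gcongr
    linarith

end Pool.Agent.K3h54.PM.G3
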