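import Pool.Agent.K3h54.PM.Stm
import Pool.Agent.W139.PX.D3

/-!
# PM brick G5: palindromes without middle digits in residue classes modulo large squares

Adaptation of `Pool.Agent.K3h54.PC.P2`.
-/

set_option autoImplicit false

namespace Pool.Agent.K3h54.PM.G5

open Finset Filter Topology Pool.Agent.Helper112
open Pool.Agent.H39R3.PB (ph ph_nonneg ph_le_one)
open Pool.Agent.H39R3.PS (EM)
open Pool.Agent.W89.PW
open Pool.Agent.W139.PX
open Pool.Agent.W809.PWSqr (EM_sum)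

/-- number of palindromes in a residue class -/
noncomputable def cnG (b s t g L q h : ℕ) : ℝ :=
  (((univ : Finset (Fin L → Fin s × Fin t)).filter (fun m => pvG b s t g L m ≡ h [MOD q])).card : ℝ)

lemma FG_eq (b s t g L J : ℕ) (α : ℝ) :
    FG b s t g L J α = ∏ c ∈ range J, if g ≤ c then ps s t (fr b L c * α) else 1 := by
  unfold FG
  rw [prod_filter]

lemma norm_sum_pvG {b s t : ℕ} (hs : 0 < s) (ht : 0 < t) (g L : ℕ) (α : ℝ) :
    ‖∑ m : Fin L → Fin s × Fin t, ee (α * (pvG b s t g L m : ℝ))‖ =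
      ((s : ℝ) * t) ^ L * FG b s t g L L α := by
  have hsr : (s : ℝ) ≠ 0 := by exact_mod_cast hs.ne'
  have htr : (t : ℝ) ≠ 0 := by exact_mod_cast ht.ne'
  have h1 : ∀ m : Fin L → Fin s × Fin t, ee (α * (pvG b s t g L m : ℝ)) =
      ee (α * ((b : ℝ) ^ (2 * L + 2) + 1)) *
        ∏ c : Fin L, (if g ≤ (c : ℕ) then
          ee ((((m c).1 : ℕ) + ((m c).2 : ℕ) : ℝ) * (fr b L c * α)) else 1) := by
    intro m
    have h2 : ∏ c : Fin L, (if g ≤ (c : ℕ) then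
          ee ((((m c).1 : ℕ) + ((m c).2 : ℕ) : ℝ) * (fr b L c * α)) else 1) =
        ee (∑ c ∈ (univ : Finset (Fin L)).filter (fun c : Fin L => g ≤ (c : ℕ)),
          (((m c).1 : ℕ) + ((m c).2 : ℕ) : ℝ) * (fr b L c * α)) := by
      have : ∀ S : Finset (Fin L), ∏ c ∈ S, ee ((((m c).1 : ℕ) + ((m c).2 : ℕ) : ℝ) * (fr b L c * α)) =
          ee (∑ c ∈ S, (((m c).1 : ℕ) + ((m c).2 : ℕ) : ℝ) * (fr b L c * α)) := by
        intro S
        induction S using Finset.induction_on with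
        | empty => simp [ls_ee_zero]
        | insert a S ha ih => rw [prod_insert ha, sum_insert ha, ls_ee_add, ih]
      rw [← this, prod_filter]
    rw [h2, ← ls_ee_add]
    congr 1
    unfold pvG
    push_cast
    rw [mul_add, mul_sum]
    congr 1
    refine sum_congr rfl fun c _ => ?_
    ring
  rw [sum_congr rfl (fun m _ => h1 m), ← mul_sum, norm_mul, ls_norm_ee, one_mul]
  have h3 : ∑ m : Fin L → Fin s × Fin t,
      ∏ c : Fin L, (if g ≤ (c : ℕ) then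
          ee ((((m c).1 : ℕ) + ((m c).2 : ℕ) : ℝ) * (fr b L c * α)) else 1) =
      ∏ c : Fin L, ∑ x : Fin s × Fin t, (if g ≤ (c : ℕ) then
        ee ((((x.1 : ℕ) : ℝ) + ((x.2 : ℕ) : ℝ)) * (fr b L c * α)) else 1) := by
    rw [Finset.prod_univ_sum, Fintype.piFinset_univ]
  rw [h3, norm_prod]
  have h4 : ∀ c : Fin L,
      ‖∑ x : Fin s × Fin t, (if g ≤ (c : ℕ) then
        ee ((((x.1 : ℕ) : ℝ) + ((x.2 : ℕ) : ℝ)) * (fr b L c * α)) else 1)‖ =
      ((s : ℝ) * t) * (if g ≤ (c : ℕ) then ps s t (fr b L (c : ℕ) * α) else 1) := by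
    intro c
    by_cases hc : g ≤ (c : ℕ)
    · simp only [if_pos hc]
      have h5 : ∑ x : Fin s × Fin t, ee ((((x.1 : ℕ) : ℝ) + ((x.2 : ℕ) : ℝ)) * (fr b L c * α)) =
          (∑ i : Fin s, ee (((i : ℕ) : ℝ) * (fr b L c * α))) *
            ∑ j : Fin t, ee (((j : ℕ) : ℝ) * (fr b L c * α)) := by
        rw [Fintype.sum_mul_sum, ← Fintype.sum_prod_type']
        refine sum_congr rfl fun x _ => ?_
        rw [add_mul, ls_ee_add]
      rw [h5, norm_mul, Fin.sum_univ_eq_sum_range (fun x : ℕ => ee ((x : ℝ) * (fr b L c * α))) s,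
        Fin.sum_univ_eq_sum_range (fun x : ℕ => ee ((x : ℝ) * (fr b L c * α))) t]
      unfold ps ph
      generalize ‖∑ x ∈ range s, ee ((x : ℝ) * (fr b L c * α))‖ = u
      generalize ‖∑ x ∈ range t, ee ((x : ℝ) * (fr b L c * α))‖ = v
      field_simp
    · simp only [if_neg hc]
      rw [sum_const, card_univ, Fintype.card_prod, Fintype.card_fin, Fintype.card_fin, mul_one,
        nsmul_eq_mul, mul_one]
      rw [Complex.norm_natCast]
      push_cast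
      rfl
  rw [prod_congr rfl (fun c _ => h4 c), prod_mul_distrib, prod_const, card_univ, Fintype.card_fin]
  congr 1
  rw [FG_eq, Fin.prod_univ_eq_prod_range (fun j => if g ≤ j then ps s t (fr b L j * α) else 1) L]

/-- splitting of a product of numbers between `0` and `1` -/
theorem splitp (p : ℕ → ℝ) (hp0 : ∀ c, 0 ≤ p c) (hp1 : ∀ c, p c ≤ 1) (L J k K : ℕ) (lam : ℝ)
    (h0 : 0 < lam) (hJ : J ≤ k * K) (hJL : J ≤ L) :
    ∏ c ∈ range L, p c ≤ (∑ i ∈ range k, lam * ∏ c ∈ SS L J K i, p c) +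
      (lam ^ (3 * k))⁻¹ * (∏ c ∈ range J, p c) ^ 4 := by
  set x : ℕ → ℝ := fun i => ∏ c ∈ (range L).filter (fun c => c < J ∧ c / K = i), p c with hx
  have hx0 : ∀ i, 0 ≤ x i := fun i => prod_nonneg fun _ _ => hp0 _
  have hnn : ∀ i ∈ range k, 0 ≤ lam * ∏ c ∈ SS L J K i,
      p c := fun i _ => mul_nonneg h0.le (prod_nonneg fun _ _ => hp0 _)
  have hlast : 0 ≤ (lam ^ (3 * k))⁻¹ * (∏ c ∈ range J, p c) ^ 4 := by
    have : 0 ≤ ∏ c ∈ range J, p c := prod_nonneg fun _ _ => hp0 _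
    positivity
  by_cases hc : ∃ i ∈ range k, x i ≤ lam
  · obtain ⟨i, hi, hxi⟩ := hc
    have e1 : ∏ c ∈ range L, p c = x i * ∏ c ∈ SS L J K i, p c := by
      rw [hx]
      exact (prod_filter_mul_prod_filter_not (range L) (fun c => c < J ∧ c / K = i) _).symm
    have e2 : ∏ c ∈ range L, p c ≤ lam * ∏ c ∈ SS L J K i, p c := by
      rw [e1]
      exact mul_le_mul_of_nonneg_right hxi (prod_nonneg fun _ _ => hp0 _)
    have e3 := single_le_sum hnn hi
    linarith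
  · push Not at hc
    have e1 : ∏ c ∈ range J, p c = ∏ i ∈ range k, x i := by
      have hmaps : ∀ c ∈ range J, c / K ∈ range k := by
        intro c hc
        rw [mem_range] at hc ⊢
        exact Nat.div_lt_of_lt_mul (by rw [mul_comm]; omega)
      rw [← prod_fiberwise_of_maps_to hmaps]
      apply prod_congr rfl
      intro i _
      apply prod_congr _ (fun _ _ => rfl)
      ext c
      simp only [mem_filter, mem_range]
      constructor
      · rintro ⟨h1, h2⟩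
        exact ⟨by omega, h1, h2⟩
      · rintro ⟨_, h1, h2⟩
        exact ⟨h1, h2⟩
    have e2 : lam ^ k ≤ ∏ c ∈ range J, p c := by
      rw [e1]
      calc lam ^ k = ∏ i ∈ range k, lam := by simp
        _ ≤ ∏ i ∈ range k, x i := prod_le_prod (fun _ _ => h0.le) (fun i hi => (hc i hi).le)
    have e3 : ∏ c ∈ range L, p c ≤ ∏ c ∈ range J, p c := by
      obtain ⟨M, rfl⟩ := Nat.exists_eq_add_of_le hJL
      rw [prod_range_add]
      exact mul_le_of_le_one_right (prod_nonneg fun _ _ => hp0 _)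
        (prod_le_one (fun _ _ => hp0 _) (fun _ _ => hp1 _))
    set y := ∏ c ∈ range J, p c with hy
    have hlk : 0 < lam ^ k := by positivity
    have hy0 : 0 < y := hlk.trans_le e2
    have e4 : y ≤ (lam ^ (3 * k))⁻¹ * y ^ 4 := by
      have e5 : lam ^ (3 * k) ≤ y ^ 3 := by
        rw [mul_comm 3 k, pow_mul]
        exact pow_le_pow_left₀ hlk.le e2 3
      rw [inv_mul_eq_div, le_div_iff₀ (by positivity)]
      calc y * lam ^ (3 * k) ≤ y * y ^ 3 := by gcongr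
        _ = y ^ 4 := by ring
    have e6 := sum_nonneg hnn
    linarith

/-- pointwise splitting -/
theorem splitG {b s t : ℕ} (g L J k K : ℕ) (lam : ℝ) (h0 : 0 < lam) (hJ : J ≤ k * K) (hJL : J ≤ L)
    (α : ℝ) :
    FG b s t g L L α ≤ (∑ i ∈ range k, lam * ∏ c ∈ (SS L J K i).filter (fun c => g ≤ c),
      ps s t (fr b L c * α)) + (lam ^ (3 * k))⁻¹ * FG b s t g L J α ^ 4 := by
  have h1 := splitp (fun c => if g ≤ c then ps s t (fr b L c * α) else 1)
    (fun c => by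
      split_ifs
      · exact Pool.Agent.W809.PWSqr.ps_nonneg _ _ _
      · exact zero_le_one)
    (fun c => by
      split_ifs
      · exact Pool.Agent.W809.PWSqr.ps_le_one _ _ _
      · exact le_rfl) L J k K lam h0 hJ hJL
  rw [FG_eq, FG_eq]
  refine h1.trans (le_of_eq ?_)
  congr 1
  refine sum_congr rfl fun i _ => ?_
  rw [prod_filter]

lemma cnG_le {b s t : ℕ} (hs : 0 < s) (ht : 0 < t) (g L M h : ℕ) (hM : 0 < M) :
    cnG b s t g L M h ≤ ((s : ℝ) * t) ^ L * EM M (FG b s t g L L) := by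
  classical
  have hM1 : (0 : ℝ) < M := by exact_mod_cast hM
  have h1 : ((M * cnG b s t g L M h : ℝ) : ℂ) =
      ∑ a ∈ range M, ee (-((a : ℝ) * h / M)) *
        ∑ m : Fin L → Fin s × Fin t, ee (((a : ℝ) / M) * (pvG b s t g L m : ℝ)) := by
    simp only [mul_sum]
    rw [Finset.sum_comm]
    have h2 : ∀ m : Fin L → Fin s × Fin t,
        ∑ a ∈ range M, ee (-((a : ℝ) * h / M)) * ee (((a : ℝ) / M) * (pvG b s t g L m : ℝ)) =
        if pvG b s t g L m ≡ h [MOD M] then (M : ℂ) else 0 := by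
      intro m
      have h3 := Pool.Agent.H623R3.PBT8.orth hM (pvG b s t g L m) h
      rw [← h3]
      refine Finset.sum_congr rfl fun a _ => ?_
      rw [← ls_ee_add]
      congr 1
      field_simp
      ring
    rw [Finset.sum_congr rfl fun m _ => h2 m, ← Finset.sum_filter, Finset.sum_const, nsmul_eq_mul]
    unfold cnG
    push_cast
    ring
  have h2 : (M : ℝ) * cnG b s t g L M h ≤ ∑ a ∈ range M, ((s : ℝ) * t) ^ L * FG b s t g L L ((a : ℝ) / M) := by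
    have h3 : (0 : ℝ) ≤ M * cnG b s t g L M h := by
      unfold cnG
      positivity
    have h4 : ‖((M * cnG b s t g L M h : ℝ) : ℂ)‖ = M * cnG b s t g L M h := by
      rw [Complex.norm_real, Real.norm_of_nonneg h3]
    rw [← h4, h1]
    refine (norm_sum_le _ _).trans (le_of_eq ?_)
    refine Finset.sum_congr rfl fun a _ => ?_
    rw [norm_mul, ls_norm_ee, one_mul]
    exact norm_sum_pvG hs ht g L _
  unfold EM
  rw [← Finset.mul_sum] at h2
  rw [← mul_div_assoc, le_div_iff₀ hM1]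
  linarith

/-- covering by dyadic blocks -/
lemma coverG (h : ℕ → ℕ) (b s t g : ℕ) (L : ℕ) (E : Finset ℕ) (Z : ℝ) (hZ : ∀ e ∈ E,
    ∑ m ∈ (Ico (2 ^ e) (2 * 2 ^ e)).filter (fun m => m.Coprime (2 * b)), cnG b s t g L (m ^ 2) (h m) ≤ Z)
    (Q : (Fin L → Fin s × Fin t) → Prop) [DecidablePred Q]
    (hQ : ∀ m, Q m → ∃ e ∈ E, ∃ p : ℕ, 2 ^ e ≤ p ∧ p < 2 * 2 ^ e ∧ p.Coprime (2 * b) ∧
      pvG b s t g L m ≡ h p [MOD p ^ 2]) :
    (((univ : Finset (Fin L → Fin s × Fin t)).filter Q).card : ℝ) ≤ E.card * Z := by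
  classical
  have hsub : (univ : Finset (Fin L → Fin s × Fin t)).filter Q ⊆
      E.biUnion fun e => ((Ico (2 ^ e) (2 * 2 ^ e)).filter (fun m => m.Coprime (2 * b))).biUnion
        fun p => (univ : Finset (Fin L → Fin s × Fin t)).filter (fun m => pvG b s t g L m ≡ h p [MOD p ^ 2]) := by
    intro m hm
    obtain ⟨e, he, p, h1, h2, h3, h4⟩ := hQ m (Finset.mem_filter.1 hm).2
    rw [Finset.mem_biUnion]
    refine ⟨e, he, ?_⟩
    rw [Finset.mem_biUnion]
    refine ⟨p, ?_, ?_⟩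
    · rw [Finset.mem_filter, Finset.mem_Ico]; exact ⟨⟨h1, h2⟩, h3⟩
    · rw [Finset.mem_filter]
      exact ⟨Finset.mem_univ _, h4⟩
  have h1 : (((univ : Finset (Fin L → Fin s × Fin t)).filter Q).card : ℝ) ≤
      ∑ e ∈ E, ∑ p ∈ (Ico (2 ^ e) (2 * 2 ^ e)).filter (fun m => m.Coprime (2 * b)),
        cnG b s t g L (p ^ 2) (h p) := by
    have h2 : ((univ : Finset (Fin L → Fin s × Fin t)).filter Q).card ≤
        ∑ e ∈ E, ∑ p ∈ (Ico (2 ^ e) (2 * 2 ^ e)).filter (fun m => m.Coprime (2 * b)),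
          ((univ : Finset (Fin L → Fin s × Fin t)).filter (fun m => pvG b s t g L m ≡ h p [MOD p ^ 2])).card := by
      refine (Finset.card_le_card hsub).trans (Finset.card_biUnion_le.trans ?_)
      exact Finset.sum_le_sum fun e _ => Finset.card_biUnion_le
    have h3 : (((univ : Finset (Fin L → Fin s × Fin t)).filter Q).card : ℝ) ≤
        ((∑ e ∈ E, ∑ p ∈ (Ico (2 ^ e) (2 * 2 ^ e)).filter (fun m => m.Coprime (2 * b)),
          ((univ : Finset (Fin L → Fin s × Fin t)).filter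
            (fun m => pvG b s t g L m ≡ h p [MOD p ^ 2])).card : ℕ) : ℝ) := by
      exact_mod_cast h2
    refine h3.trans (le_of_eq ?_)
    push_cast
    refine Finset.sum_congr rfl fun e _ => Finset.sum_congr rfl fun p _ => ?_
    unfold cnG
    congr!
  refine h1.trans ((Finset.sum_le_sum hZ).trans (le_of_eq ?_))
  rw [Finset.sum_const, nsmul_eq_mul]

/-- one dyadic block of squares -/
theorem sq_blockG (h : ℕ → ℕ) {b s t g : ℕ} {H CM CL : ℝ} (hCL : 0 < CL)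
    (h4 : ∀ L J M : ℕ, J ≤ L → b ^ (2 * J + 2) ≤ M → M.Coprime b →
      EM M (fun α => FG b s t g L J α ^ 4) ≤ CL * m4 s t ^ J) (hMaj : MajG b s t g H CM) (hb : 2 ≤ b) (hs : 1 ≤ s) (ht : 1 ≤ t)
    (hst : s + t = b + 1) (L k K J P : ℕ) (T lam : ℝ) (h0 : 0 < lam)
    (hT : ∀ n : ℕ, 1 ≤ n → n ≤ b ^ (2 * L + 3) → (n.divisors.card : ℝ) ≤ T)
    (hK1 : 1 ≤ K) (hJk : J ≤ k * K) (hJL : J ≤ L) (h2 : b ^ (J + 1) ≤ P) (h3 : P ≤ b ^ (J + 2)) :
    ∑ m ∈ (Ico P (2 * P)).filter (fun m => m.Coprime (2 * b)), cnG b s t g L (m ^ 2) (h m) ≤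
      ((s : ℝ) * t) ^ L * (k * lam * (P * (CM * H ^ (L - K)) + T) +
        CL * b ^ 2 * (b * m4 s t) ^ J / lam ^ (3 * k)) := by
  have hP1 : 1 ≤ P := (Nat.one_le_pow _ _ (by omega)).trans h2
  obtain ⟨S, hS⟩ : ∃ S, (Ico P (2 * P)).filter (fun m => m.Coprime (2 * b)) = S := ⟨_, rfl⟩
  rw [hS]
  have hmem : ∀ m ∈ S, P ≤ m ∧ m < 2 * P ∧ m.Coprime (2 * b) := by
    intro m hm
    rw [← hS, mem_filter, mem_Ico] at hm
    exact ⟨hm.1.1, hm.1.2, hm.2⟩
  have hm4 : 0 ≤ m4 s t := by unfold m4; positivity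
  -- the fourth power part
  have hA : ∀ m ∈ S, EM (m ^ 2) (fun x => FG b s t g L J x ^ 4) ≤ CL * m4 s t ^ J := by
    intro m hm
    obtain ⟨g1, _, g3⟩ := hmem m hm
    exact h4 L J (m ^ 2) hJL (by
      calc b ^ (2 * J + 2) = (b ^ (J + 1)) ^ 2 := by rw [← pow_mul]; congr 1; ring
        _ ≤ m ^ 2 := Nat.pow_le_pow_left (h2.trans g1) 2)
      ((Nat.Coprime.coprime_dvd_right (Dvd.intro_left 2 rfl) g3).pow_left 2)
  have hcard : (S.card : ℝ) ≤ (b : ℝ) ^ (J + 2) := by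
    have : S.card ≤ b ^ (J + 2) := by
      rw [← hS]
      refine (card_filter_le _ _).trans ?_
      rw [Nat.card_Ico]; omega
    exact_mod_cast this
  -- the majorant part
  have hG' : ∀ i, ∑ m ∈ S, EM (m ^ 2) (fun x => ∏ c ∈ (SS L J K i).filter (fun c => g ≤ c), ps s t (fr b L c * x)) ≤
      P * (CM * H ^ (L - K)) + T := by
    intro i
    have e1 := (hMaj L J K i T hK1 hT).2 P hP1
    rw [hS] at e1
    exact e1
  calc ∑ m ∈ S, cnG b s t g L (m ^ 2) (h m) ≤ ∑ m ∈ S, ((s : ℝ) * t) ^ L * ((∑ i ∈ range k, lam * EM (m ^ 2)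
        (fun x => ∏ c ∈ (SS L J K i).filter (fun c => g ≤ c), ps s t (fr b L c * x))) +
        (lam ^ (3 * k))⁻¹ * EM (m ^ 2) (fun x => FG b s t g L J x ^ 4)) := by
        refine sum_le_sum fun m hm => ?_
        obtain ⟨g1, _, g3⟩ := hmem m hm
        refine (cnG_le hs ht g L (m ^ 2) (h m) (pow_pos (by omega) 2)).trans ?_
        refine mul_le_mul_of_nonneg_left ?_ (by positivity)
        rw [← EM_sum]
        exact Pool.Agent.W809.PWSqr.EM_mono _ _ _ fun x => splitG g L J k K lam h0 hJk hJL x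
    _ = ((s : ℝ) * t) ^ L * ((∑ i ∈ range k, lam * ∑ m ∈ S, EM (m ^ 2)
        (fun x => ∏ c ∈ (SS L J K i).filter (fun c => g ≤ c), ps s t (fr b L c * x))) +
        (lam ^ (3 * k))⁻¹ * ∑ m ∈ S, EM (m ^ 2) (fun x => FG b s t g L J x ^ 4)) := by
        rw [← mul_sum, sum_add_distrib, sum_comm, ← mul_sum]
        simp only [mul_sum]
    _ ≤ ((s : ℝ) * t) ^ L * ((∑ i ∈ range k, lam * (P * (CM * H ^ (L - K)) + T)) +
        (lam ^ (3 * k))⁻¹ * (CL * (b ^ 2 * (b * m4 s t) ^ J))) := by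
        refine mul_le_mul_of_nonneg_left ?_ (by positivity)
        refine add_le_add ?_ ?_
        · exact sum_le_sum fun i _ => mul_le_mul_of_nonneg_left (hG' i) h0.le
        · refine mul_le_mul_of_nonneg_left ?_ (by positivity)
          refine (sum_le_sum hA).trans ?_
          rw [sum_const, nsmul_eq_mul]
          calc (S.card : ℝ) * (CL * m4 s t ^ J) ≤ (b : ℝ) ^ (J + 2) * (CL * m4 s t ^ J) :=
                mul_le_mul_of_nonneg_right hcard (by positivity)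
            _ = CL * (b ^ 2 * (b * m4 s t) ^ J) := by rw [mul_pow, pow_add]; ring
    _ = ((s : ℝ) * t) ^ L * (k * lam * (P * (CM * H ^ (L - K)) + T) +
        CL * b ^ 2 * (b * m4 s t) ^ J / lam ^ (3 * k)) := by
        rw [sum_const, card_range, nsmul_eq_mul]
        congr 1
        rw [div_eq_mul_inv, mul_assoc]
        ring

/-- one block with the choice of parameters -/
lemma blockG (h : ℕ → ℕ) {b s t g : ℕ} {H CM CL : ℝ} (hCL : 0 < CL)
    (h4 : ∀ L J M : ℕ, J ≤ L → b ^ (2 * J + 2) ≤ M → M.Coprime b →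
      EM M (fun α => FG b s t g L J α ^ 4) ≤ CL * m4 s t ^ J) (hMaj : MajG b s t g H CM) (hh : 0 < H) (hh1 : H ≤ 1)
    (hCM : 0 < CM) (hb : 2 ≤ b) (hs : 1 ≤ s) (ht : 1 ≤ t)
    (hst : s + t = b + 1) {a κ : ℝ} (ha0 : 0 < a) (ha1 : a < 1) (ha : (b : ℝ) * m4 s t ≤ a)
    (k : ℕ) (hk : 1 ≤ k) (hκk : (b : ℝ) ^ κ * H * H ^ (-(1 / (k : ℝ))) ≤ 1)
    (L J P : ℕ) (T : ℝ)
    (hT : ∀ n : ℕ, 1 ≤ n → n ≤ b ^ (2 * L + 3) → (n.divisors.card : ℝ) ≤ T)
    (hJL : J ≤ L) (hP : (P : ℝ) ≤ (b : ℝ) ^ (κ * L)) (h2 : b ^ (J + 1) ≤ P) (h3 : P ≤ b ^ (J + 2)) :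
    ∑ m ∈ (Ico P (2 * P)).filter (fun m => m.Coprime (2 * b)), cnG b s t g L (m ^ 2) (h m) ≤
      (k * (1 + CM * H⁻¹ ^ 2) + CL * b ^ 2) * ((s : ℝ) * t) ^ L * T * a ^ (J / (6 * k)) := by
  have hb0 : (0 : ℝ) < b := by exact_mod_cast (show 0 < b by omega)
  have hT1 : 1 ≤ T := by
    have := hT 1 le_rfl (Nat.one_le_pow _ _ (by omega))
    simpa using this
  have hm4 : 0 ≤ m4 s t := by unfold m4; positivity
  have hkr : (0 : ℝ) < k := by exact_mod_cast hk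
  obtain ⟨lam, hlam⟩ : ∃ lam : ℝ, a ^ (J / (6 * k)) = lam := ⟨_, rfl⟩
  have hl0 : 0 < lam := by rw [← hlam]; positivity
  have h5 := sq_blockG h hCL h4 hMaj (by omega) hs ht hst L k (J / k + 1) J P T lam hl0 hT (Nat.le_add_left 1 _)
    (by
      have := Nat.lt_mul_div_succ J (show 0 < k by omega)
      rw [← Nat.succ_eq_add_one]; exact this.le) hJL h2 h3
  rw [hlam]
  refine h5.trans ?_
  have h6 : (b * m4 s t : ℝ) ^ J / lam ^ (3 * k) ≤ lam := by
    rw [div_le_iff₀ (by positivity), ← pow_succ', ← hlam, ← pow_mul]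
    calc (b * m4 s t : ℝ) ^ J ≤ a ^ J := pow_le_pow_left₀ (by positivity) ha _
      _ ≤ _ := by
        apply pow_le_pow_of_le_one ha0.le ha1.le
        have e1 : J / (6 * k) * (6 * k) ≤ J := Nat.div_mul_le_self _ _
        have e2 : 3 * k + 1 ≤ 6 * k := by omega
        calc J / (6 * k) * (3 * k + 1) ≤ J / (6 * k) * (6 * k) := Nat.mul_le_mul_left _ e2
          _ ≤ J := e1
  have h7 : (P : ℝ) * H ^ (L - (J / k + 1)) ≤ H⁻¹ ^ 2 := by
    have e1 : H ^ (L - (J / k + 1)) ≤ H ^ ((L : ℝ) - ((L : ℝ) / k + 1)) := by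
      rw [← Real.rpow_natCast]
      apply Real.rpow_le_rpow_of_exponent_ge hh hh1
      have e2 : L ≤ (L - (J / k + 1)) + (J / k + 1) := by omega
      have e3 : (L : ℝ) ≤ ((L - (J / k + 1) : ℕ) : ℝ) + ((J / k + 1 : ℕ) : ℝ) := by exact_mod_cast e2
      have e4 : ((J / k : ℕ) : ℝ) ≤ (J : ℝ) / k := Nat.cast_div_le
      have e5 : (J : ℝ) / k ≤ (L : ℝ) / k := by
        apply div_le_div_of_nonneg_right _ hkr.le
        exact_mod_cast hJL
      push_cast at e3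
      linarith
    have e2 : H ^ ((L : ℝ) - ((L : ℝ) / k + 1)) =
        (H * H ^ (-(1 / (k : ℝ)))) ^ (L : ℝ) * H⁻¹ := by
      rw [Real.mul_rpow hh.le (Real.rpow_nonneg hh.le _), ← Real.rpow_mul hh.le,
        ← Real.rpow_add hh, ← Real.rpow_neg_one, ← Real.rpow_add hh]
      congr 1
      ring
    calc (P : ℝ) * H ^ (L - (J / k + 1)) ≤ (b : ℝ) ^ (κ * L) *
          ((H * H ^ (-(1 / (k : ℝ)))) ^ (L : ℝ) * H⁻¹) := by
          rw [← e2]
          exact mul_le_mul hP e1 (by positivity) (by positivity)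
      _ = ((b : ℝ) ^ κ * H * H ^ (-(1 / (k : ℝ)))) ^ (L : ℝ) * H⁻¹ := by
          rw [Real.rpow_mul hb0.le, mul_assoc ((b : ℝ) ^ κ),
            Real.mul_rpow (Real.rpow_nonneg hb0.le _) (mul_nonneg hh.le (Real.rpow_nonneg hh.le _))]
          ring
      _ ≤ 1 * H⁻¹ := by
          apply mul_le_mul_of_nonneg_right _ (inv_nonneg.2 hh.le)
          exact Real.rpow_le_one (by positivity) hκk (Nat.cast_nonneg _)
      _ ≤ H⁻¹ ^ 2 := by
          have : 1 ≤ H⁻¹ := (one_le_inv₀ hh).2 hh1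
          nlinarith
  have hh2 : 0 ≤ CM * H⁻¹ ^ 2 := by positivity
  have h7' : (P : ℝ) * (CM * H ^ (L - (J / k + 1))) ≤ CM * H⁻¹ ^ 2 := by
    have := mul_le_mul_of_nonneg_left h7 hCM.le
    linarith
  have h8 : (k : ℝ) * lam * (P * (CM * H ^ (L - (J / k + 1))) + T) ≤
      k * lam * ((1 + CM * H⁻¹ ^ 2) * T) := by
    apply mul_le_mul_of_nonneg_left _ (by positivity)
    nlinarith
  have h9 : CL * (b : ℝ) ^ 2 * (b * m4 s t) ^ J / lam ^ (3 * k) ≤ CL * b ^ 2 * lam * T := by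
    rw [mul_div_assoc]
    calc CL * (b : ℝ) ^ 2 * ((b * m4 s t) ^ J / lam ^ (3 * k)) ≤ CL * b ^ 2 * lam :=
          mul_le_mul_of_nonneg_left h6 (by positivity)
      _ ≤ CL * b ^ 2 * lam * T := le_mul_of_one_le_right (by positivity) hT1
  calc ((s : ℝ) * t) ^ L * (k * lam * (P * (CM * H ^ (L - (J / k + 1))) + T) +
        CL * b ^ 2 * (b * m4 s t) ^ J / lam ^ (3 * k))
      ≤ ((s : ℝ) * t) ^ L * (k * lam * ((1 + CM * H⁻¹ ^ 2) * T) + CL * b ^ 2 * lam * T) :=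
        mul_le_mul_of_nonneg_left (add_le_add h8 h9) (by positivity)
    _ = (k * (1 + CM * H⁻¹ ^ 2) + CL * b ^ 2) * ((s : ℝ) * t) ^ L * T * lam := by ring

/-- palindromes divisible by large squares, from a majorant with mean `H` -/
theorem sqG_of_majG {b s t g : ℕ} {H CM CL : ℝ} (hCL : 0 < CL)
    (h4 : ∀ L J M : ℕ, J ≤ L → b ^ (2 * J + 2) ≤ M → M.Coprime b →
      EM M (fun α => FG b s t g L J α ^ 4) ≤ CL * m4 s t ^ J) (hMaj : MajG b s t g H CM) (hh : 0 < H) (hHb : 1 ≤ b * H)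
    (hCM : 0 < CM) (hb : 2 ≤ b) (hs : 1 ≤ s) (ht : 1 ≤ t) (hst : s + t = b + 1)
    (hm : (b : ℝ) * m4 s t < 1) {κ : ℝ} (hκ0 : 0 < κ) (hκ : (b : ℝ) ^ κ * H < 1) : SqG b s t g κ := by
  classical
  intro η hη A
  have hbR : (2 : ℝ) ≤ b := by exact_mod_cast hb
  have hb1 : (1 : ℝ) < b := by linarith
  have hb0 : (0 : ℝ) < b := by linarith
  have hst0 : (0 : ℝ) < (s : ℝ) * t := by
    have h1 : (0 : ℝ) < s := by exact_mod_cast hs
    have h2 : (0 : ℝ) < t := by exact_mod_cast ht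
    positivity
  have hκ1 : κ < 1 := by
    by_contra hcon
    push Not at hcon
    have h1 : (b : ℝ) ≤ (b : ℝ) ^ κ := by
      calc (b : ℝ) = (b : ℝ) ^ (1 : ℝ) := (Real.rpow_one _).symm
        _ ≤ _ := Real.rpow_le_rpow_of_exponent_le hb1.le hcon
    have h2 : (b : ℝ) * H ≤ (b : ℝ) ^ κ * H := mul_le_mul_of_nonneg_right h1 hh.le
    linarith
  have hh1 : H ≤ 1 := by
    have h1 : 1 ≤ (b : ℝ) ^ κ := Real.one_le_rpow hb1.le hκ0.le
    have h2 : 1 * H ≤ (b : ℝ) ^ κ * H := mul_le_mul_of_nonneg_right h1 hh.le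
    linarith
  obtain ⟨a, ha⟩ : ∃ a : ℝ, max ((b : ℝ) * m4 s t) (1 / 2) = a := ⟨_, rfl⟩
  have ha0 : 0 < a := by rw [← ha]; exact lt_of_lt_of_le (by norm_num) (le_max_right _ _)
  have ha1 : a < 1 := by rw [← ha]; exact max_lt hm (by norm_num)
  have ham : (b : ℝ) * m4 s t ≤ a := by rw [← ha]; exact le_max_left _ _
  -- the number of blocks
  obtain ⟨k, hk, hkκ⟩ : ∃ k : ℕ, 1 ≤ k ∧
      (b : ℝ) ^ κ * H * H ^ (-(1 / (k : ℝ))) ≤ 1 := by
    have hlim : Tendsto (fun k : ℕ => (b : ℝ) ^ κ * H * H ^ (-(1 / (k : ℝ)))) atTop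
        (𝓝 ((b : ℝ) ^ κ * H * H ^ (-(0 : ℝ)))) := by
      apply Tendsto.const_mul
      apply Tendsto.rpow tendsto_const_nhds _ (Or.inl hh.ne')
      exact tendsto_one_div_atTop_nhds_zero_nat.neg
    rw [neg_zero, Real.rpow_zero, mul_one] at hlim
    obtain ⟨k, h1, h2⟩ := ((hlim.eventually (gt_mem_nhds hκ)).and (eventually_ge_atTop 1)).exists
    exact ⟨k, h2, h1.le⟩
  have hkr : (1 : ℝ) ≤ k := by exact_mod_cast hk
  have hkr0 : (0 : ℝ) < k := by linarith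
  obtain ⟨ρ, hρ⟩ : ∃ ρ : ℝ, a ^ (η / (12 * k)) = ρ := ⟨_, rfl⟩
  have hρ0 : 0 < ρ := by rw [← hρ]; positivity
  have hρ1 : ρ < 1 := by
    rw [← hρ]
    exact Real.rpow_lt_one ha0.le ha1 (by positivity)
  obtain ⟨δ, hδ⟩ : ∃ δ : ℝ, Real.logb b (ρ⁻¹) / 2 = δ := ⟨_, rfl⟩
  have hδ0 : 0 < δ := by
    rw [← hδ]
    have := Real.logb_pos (b := b) hb1 ((one_lt_inv₀ hρ0).2 hρ1)
    linarith
  have h10 : (b : ℝ) ^ (2 * δ) = ρ⁻¹ := by
    rw [← hδ, mul_div_cancel₀ _ (two_ne_zero)]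
    exact Real.rpow_logb hb0 hb1.ne' (inv_pos.2 hρ0)
  obtain ⟨C, hC0, hC⟩ := divisor_bound δ hδ0
  obtain ⟨C1, hC1⟩ : ∃ C1 : ℝ, (k * (1 + CM * H⁻¹ ^ 2) + CL * (b : ℝ) ^ 2) = C1 := ⟨_, rfl⟩
  have hC10 : 0 < C1 := by rw [← hC1]; positivity
  obtain ⟨C2, hC2⟩ : ∃ C2 : ℝ, (b : ℝ) * C1 * C * ρ⁻¹ ^ 2 * (a ^ 2)⁻¹ = C2 := ⟨_, rfl⟩
  have hK0 : (0 : ℝ) < C2 := by rw [← hC2]; positivity
  have hlim := tendsto_pow_const_mul_const_pow_of_abs_lt_one (A + 1) (r := ρ)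
    (by rw [abs_of_pos hρ0]; exact hρ1)
  have hev : ∀ᶠ L : ℕ in atTop, (L : ℝ) ^ (A + 1) * ρ ^ L < C2⁻¹ :=
    hlim.eventually (gt_mem_nhds (inv_pos.2 hK0))
  obtain ⟨L0, hL0'⟩ := exists_nat_gt (4 / η)
  filter_upwards [hev, eventually_ge_atTop (max L0 1)] with L hL1 hL2
  intro h
  have hL2a : L0 ≤ L := (le_max_left _ _).trans hL2
  have hL2b : 1 ≤ L := (le_max_right _ _).trans hL2
  have hL0 : (0 : ℝ) < L := by exact_mod_cast hL2b
  have hηL : 4 < η * L := by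
    have e1 : (4 / η : ℝ) < L := lt_of_lt_of_le hL0' (by exact_mod_cast hL2a)
    rw [div_lt_iff₀ hη] at e1
    linarith
  obtain ⟨T, hTdef⟩ : ∃ T : ℝ, C * ((b : ℝ) ^ (2 * L + 4)) ^ δ = T := ⟨_, rfl⟩
  have hT : ∀ n : ℕ, 1 ≤ n → n ≤ b ^ (2 * L + 3) → (n.divisors.card : ℝ) ≤ T := by
    intro n h1 h2
    refine (hC n h1).trans ?_
    rw [← hTdef]
    refine mul_le_mul_of_nonneg_left ?_ hC0.le
    refine Real.rpow_le_rpow (Nat.cast_nonneg _) ?_ hδ0.le
    exact_mod_cast h2.trans (Nat.pow_le_pow_right (by omega) (by omega))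
  have hTval : T = C * ρ⁻¹ ^ 2 * (ρ⁻¹) ^ L := by
    rw [mul_assoc C, ← pow_add, ← hTdef, ← h10, ← Real.rpow_natCast, ← Real.rpow_natCast,
      ← Real.rpow_mul hb0.le, ← Real.rpow_mul hb0.le]
    congr 2
    push_cast
    ring
  have hT0 : 0 ≤ T := by rw [hTval]; positivity
  have hlamk : ∀ J : ℕ, η * L ≤ J + 3 → a ^ (J / (6 * k)) ≤ (ρ ^ L) ^ 2 * (a ^ 2)⁻¹ := by
    intro J hJ
    have e0 : η * L / (6 * k) - 2 ≤ ((J / (6 * k) : ℕ) : ℝ) := by
      have h1 : J ≤ 6 * k * (J / (6 * k)) + 6 * k := by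
        have := Nat.lt_mul_div_succ J (show 0 < 6 * k by omega)
        rw [mul_add, mul_one] at this
        omega
      have h2 : (J : ℝ) ≤ 6 * k * ((J / (6 * k) : ℕ) : ℝ) + 6 * k := by exact_mod_cast h1
      rw [sub_le_iff_le_add, div_le_iff₀ (by positivity)]
      nlinarith
    have e1 : a ^ (J / (6 * k)) ≤ a ^ (η * L / (6 * k) - 2) := by
      rw [← Real.rpow_natCast]
      exact Real.rpow_le_rpow_of_exponent_ge ha0 ha1.le e0
    refine e1.trans (le_of_eq ?_)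
    rw [← hρ, ← pow_mul, ← Real.rpow_natCast, ← Real.rpow_mul ha0.le,
      Real.rpow_sub ha0, div_eq_mul_inv]
    congr 1
    · congr 1
      push_cast
      field_simp
      ring
    · congr 1
      exact_mod_cast Real.rpow_natCast a 2
  -- dyadic blocks
  let E : Finset ℕ := (range (b * L)).filter fun e =>
    ∃ J : ℕ, J ≤ L ∧ η * L ≤ (J : ℝ) + 3 ∧ b ^ (J + 1) ≤ 2 ^ e ∧ 2 ^ e ≤ b ^ (J + 2) ∧
      (((2 ^ e : ℕ) : ℝ)) ≤ (b : ℝ) ^ (κ * L)
  have hE : ∀ e ∈ E,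
      ∑ m ∈ (Ico (2 ^ e) (2 * 2 ^ e)).filter (fun m => m.Coprime (2 * b)), cnG b s t g L (m ^ 2) (h m) ≤
        C1 * ((s : ℝ) * t) ^ L * T * ((ρ ^ L) ^ 2 * (a ^ 2)⁻¹) := by
    intro e he
    obtain ⟨_, J, h1, h2, h3, h5, h6⟩ := Finset.mem_filter.1 he
    have h7 := blockG h hCL h4 hMaj hh hh1 hCM hb hs ht hst ha0 ha1 ham k hk hkκ L J (2 ^ e) T hT h1 h6 h3 h5
    rw [hC1] at h7
    exact h7.trans (mul_le_mul_of_nonneg_left (hlamk _ h2) (by positivity))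
  have hcov := coverG h b s t g L E _ hE (fun m => ∃ p : ℕ, p.Coprime (2 * b) ∧
      (b : ℝ) ^ (η * L) ≤ p ∧ (p : ℝ) ≤ (b : ℝ) ^ (κ * L) ∧ pvG b s t g L m ≡ h p [MOD p ^ 2]) (by
    rintro m ⟨p, hp1, hp2, hp3, hp4⟩
    have hp0 : p ≠ 0 := by
      rintro rfl
      have : (0 : ℝ) < (b : ℝ) ^ (η * L) := by positivity
      rw [Nat.cast_zero] at hp2
      linarith
    have hlow : 2 ^ Nat.log 2 p ≤ p := Nat.pow_log_le_self 2 hp0
    have hupp : p < 2 * 2 ^ Nat.log 2 p := by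
      have := Nat.lt_pow_succ_log_self (b := 2) (by norm_num) p
      rwa [pow_succ'] at this
    obtain ⟨J, hJ⟩ : ∃ J, Nat.log b (2 ^ Nat.log 2 p) = J := ⟨_, rfl⟩
    have hJ1 : b ^ J ≤ 2 ^ Nat.log 2 p := by
      rw [← hJ]; exact Nat.pow_log_le_self b (by positivity)
    have hJ2 : 2 ^ Nat.log 2 p < b ^ (J + 1) := by
      rw [← hJ]; exact Nat.lt_pow_succ_log_self (b := b) (by omega) _
    have hJup : (J : ℝ) ≤ κ * L := by
      have h1 : (b : ℝ) ^ (J : ℝ) ≤ (b : ℝ) ^ (κ * L) := by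
        rw [Real.rpow_natCast]
        refine le_trans ?_ hp3
        exact_mod_cast hJ1.trans hlow
      exact (Real.rpow_le_rpow_left_iff hb1).1 h1
    have hJlow : η * L ≤ J + 2 := by
      have h1 : (b : ℝ) ^ (η * L) ≤ (b : ℝ) ^ ((J : ℝ) + 2) := by
        refine hp2.trans ?_
        have h2 : p ≤ b ^ (J + 2) := by
          have e1 : b ^ (J + 2) = b * b ^ (J + 1) := by rw [pow_succ']
          rw [e1]
          have e2 : 2 * b ^ (J + 1) ≤ b * b ^ (J + 1) := Nat.mul_le_mul_right _ (by omega)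
          omega
        have h3 : (b : ℝ) ^ ((J : ℝ) + 2) = (b : ℝ) ^ (J + 2) := by
          rw [← Real.rpow_natCast]
          push_cast
          rfl
        rw [h3]
        exact_mod_cast h2
      exact (Real.rpow_le_rpow_left_iff hb1).1 h1
    have hJpos : 2 ≤ J := by
      have : (2 : ℝ) ≤ J := by linarith
      exact_mod_cast this
    have hJL : J < L := by
      have : (J : ℝ) < L := by
        calc (J : ℝ) ≤ κ * L := hJup
          _ < 1 * L := mul_lt_mul_of_pos_right hκ1 hL0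
          _ = L := one_mul _
      exact_mod_cast this
    have hlog : Nat.log 2 p < b * L := by
      have h1 : (2 : ℕ) ^ Nat.log 2 p < 2 ^ (b * L) := by
        refine lt_of_lt_of_le hJ2 ?_
        calc b ^ (J + 1) ≤ b ^ L := Nat.pow_le_pow_right (by omega) (by omega)
          _ ≤ (2 ^ b) ^ L := Nat.pow_le_pow_left (Nat.lt_two_pow_self).le L
          _ = 2 ^ (b * L) := by rw [pow_mul]
      exact (Nat.pow_lt_pow_iff_right (by norm_num)).1 h1
    refine ⟨Nat.log 2 p, ?_, p, hlow, hupp, hp1, hp4⟩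
    rw [Finset.mem_filter, Finset.mem_range]
    refine ⟨hlog, J - 1, by omega, ?_, ?_, ?_, ?_⟩
    · have : ((J - 1 : ℕ) : ℝ) = J - 1 := by
        rw [Nat.cast_sub (by omega)]; push_cast; rfl
      rw [this]; linarith
    · rw [show J - 1 + 1 = J by omega]; exact hJ1
    · rw [show J - 1 + 2 = J + 1 by omega]; exact hJ2.le
    · refine le_trans ?_ hp3
      exact_mod_cast hlow)
  refine le_trans (le_of_eq ?_) (hcov.trans ?_)
  · congr!
  have hEc : (E.card : ℝ) ≤ b * L := by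
    have : E.card ≤ b * L := by
      refine (Finset.card_filter_le _ _).trans ?_
      rw [Finset.card_range]
    exact_mod_cast this
  have hr : ρ ^ L ≠ 0 := (pow_pos hρ0 L).ne'
  calc (E.card : ℝ) * (C1 * ((s : ℝ) * t) ^ L * T * ((ρ ^ L) ^ 2 * (a ^ 2)⁻¹)) ≤
      (b * L) * (C1 * ((s : ℝ) * t) ^ L * T * ((ρ ^ L) ^ 2 * (a ^ 2)⁻¹)) :=
        mul_le_mul_of_nonneg_right hEc (by positivity)
    _ = ((s : ℝ) * t) ^ L * (C2 * (L * ρ ^ L)) := by
        rw [hTval, inv_pow ρ L, ← hC2]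
        field_simp
    _ ≤ ((s : ℝ) * t) ^ L * (1 / (L : ℝ) ^ A) := by
        refine mul_le_mul_of_nonneg_left ?_ (by positivity)
        rw [le_div_iff₀ (by positivity)]
        have e1 : C2 * (L * ρ ^ L) * (L : ℝ) ^ A = C2 * ((L : ℝ) ^ (A + 1) * ρ ^ L) := by
          rw [pow_succ]; ring
        rw [e1]
        calc C2 * ((L : ℝ) ^ (A + 1) * ρ ^ L) ≤ C2 * C2⁻¹ :=
              mul_le_mul_of_nonneg_left hL1.le hK0.le
          _ = 1 := mul_inv_cancel₀ hK0.ne'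
    _ = ((s : ℝ) * t) ^ L / (L : ℝ) ^ A := by ring


theorem main (h2 : StG2) : StG5 := by
  intro b s t g H CM κ hMaj hH hHb hCM hb hs ht hst hm hκ0 hκ
  obtain ⟨CL, hCL, -, h4⟩ := h2 b s t g hb hs ht hst
  exact sqG_of_majG hCL h4 hMaj hH hHb hCM hb hs ht hst hm hκ0 hκ

end Pool.Agent.K3h54.PM.G5
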