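import Pool.Agent.K3h54.PM.Stm
import Pool.Agent.Y816.PS.A

/-!
# Brick G6: counting by exponential sums (by helper70, port of `Y816.PS.cnth_bound`)
-/

set_option autoImplicit false

namespace Pool.Agent.K3h54.PM.G6

open Finset Filter Topology Pool.Agent.Helper112
open Pool.Agent.H39R3.PB (ph ph_nonneg ph_le_one)
open Pool.Agent.W89.PW
open Pool.Agent.H623R3.PBT8 (orth group coprime_pos)

/-- the exponential sum over palindromes is a product -/
theorem norm_sum_pvG {s t : ℕ} (hs : 0 < s) (ht : 0 < t) (b g L : ℕ) (α : ℝ) :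
    ‖∑ m : Fin L → Fin s × Fin t, ee (α * (pvG b s t g L m : ℝ))‖ =
      ((s : ℝ) * t) ^ L * FG b s t g L L α := by
  have hsr : (s : ℝ) ≠ 0 := by exact_mod_cast hs.ne'
  have htr : (t : ℝ) ≠ 0 := by exact_mod_cast ht.ne'
  have h1 : ∀ m : Fin L → Fin s × Fin t, ee (α * (pvG b s t g L m : ℝ)) =
      ee (α * ((b : ℝ) ^ (2 * L + 2) + 1)) *
        ∏ c : Fin L, (if g ≤ (c : ℕ) then
          ee (((((m c).1 : ℕ) : ℝ) + (((m c).2 : ℕ) : ℝ)) * (fr b L c * α)) else 1) := by
    intro m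
    have h2 : ∏ c : Fin L, (if g ≤ (c : ℕ) then
        ee (((((m c).1 : ℕ) : ℝ) + (((m c).2 : ℕ) : ℝ)) * (fr b L c * α)) else 1) =
        ee (∑ c ∈ (univ : Finset (Fin L)).filter (fun c : Fin L => g ≤ (c : ℕ)),
          ((((m c).1 : ℕ) : ℝ) + (((m c).2 : ℕ) : ℝ)) * (fr b L c * α)) := by
      have : ∀ s' : Finset (Fin L), ∏ c ∈ s', ee (((((m c).1 : ℕ) : ℝ) + (((m c).2 : ℕ) : ℝ)) *
          (fr b L c * α)) =
          ee (∑ c ∈ s', ((((m c).1 : ℕ) : ℝ) + (((m c).2 : ℕ) : ℝ)) * (fr b L c * α)) := by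
        intro s'
        induction s' using Finset.induction_on with
        | empty => simp [ls_ee_zero]
        | insert a s' ha ih => rw [prod_insert ha, sum_insert ha, ls_ee_add, ih]
      rw [← prod_filter]
      exact this _
    rw [h2, ← ls_ee_add]
    congr 1
    unfold pvG
    push_cast
    rw [mul_add, mul_sum]
    congr 1
    refine sum_congr rfl fun c _ => ?_
    ring
  rw [sum_congr rfl (fun m _ => h1 m), ← mul_sum, norm_mul, ls_norm_ee, one_mul]
  have h3 : ∑ m : Fin L → Fin s × Fin t,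
      ∏ c : Fin L, (if g ≤ (c : ℕ) then
        ee (((((m c).1 : ℕ) : ℝ) + (((m c).2 : ℕ) : ℝ)) * (fr b L c * α)) else 1) =
      ∏ c : Fin L, ∑ x : Fin s × Fin t, (if g ≤ (c : ℕ) then
        ee ((((x.1 : ℕ) : ℝ) + ((x.2 : ℕ) : ℝ)) * (fr b L c * α)) else 1) := by
    rw [Finset.prod_univ_sum, Fintype.piFinset_univ]
  rw [h3, norm_prod]
  have h4 : ∀ c : Fin L, ‖∑ x : Fin s × Fin t, (if g ≤ (c : ℕ) then
      ee ((((x.1 : ℕ) : ℝ) + ((x.2 : ℕ) : ℝ)) * (fr b L c * α)) else 1)‖ =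
      ((s : ℝ) * t) * (if g ≤ (c : ℕ) then ps s t (fr b L (c : ℕ) * α) else 1) := by
    intro c
    by_cases hgc : g ≤ (c : ℕ)
    · simp only [if_pos hgc]
      have h5 : ∑ x : Fin s × Fin t, ee ((((x.1 : ℕ) : ℝ) + ((x.2 : ℕ) : ℝ)) * (fr b L c * α)) =
          (∑ i ∈ range s, ee ((i : ℝ) * (fr b L c * α))) *
            ∑ j ∈ range t, ee ((j : ℝ) * (fr b L c * α)) := by
        rw [Fintype.sum_prod_type,
          ← Fin.sum_univ_eq_sum_range (fun x : ℕ => ee ((x : ℝ) * (fr b L c * α))) s,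
          ← Fin.sum_univ_eq_sum_range (fun x : ℕ => ee ((x : ℝ) * (fr b L c * α))) t, sum_mul_sum]
        refine sum_congr rfl fun i _ => sum_congr rfl fun j _ => ?_
        rw [← ls_ee_add]
        congr 1
        ring
      rw [h5, norm_mul]
      unfold ps ph
      generalize ‖∑ i ∈ range s, ee ((i : ℝ) * (fr b L c * α))‖ = X
      generalize ‖∑ j ∈ range t, ee ((j : ℝ) * (fr b L c * α))‖ = Y
      field_simp
    · simp only [if_neg hgc]
      rw [sum_const, card_univ, Fintype.card_prod, Fintype.card_fin, Fintype.card_fin]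
      simp
  rw [prod_congr rfl (fun c _ => h4 c), prod_mul_distrib, prod_const, card_univ, Fintype.card_fin]
  congr 1
  unfold FG
  rw [Fin.prod_univ_eq_prod_range (fun j => if g ≤ j then ps s t (fr b L j * α) else 1) L,
    prod_filter]

/-- counting by exponential sums -/
theorem main : StG6 := by
  intro b s t g L q h hs ht hq
  unfold erG
  have hq0 := coprime_pos hq
  have hqr : (0 : ℝ) < q := by exact_mod_cast hq0
  have hqc : (q : ℂ) ≠ 0 := by exact_mod_cast hq0.ne'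
  obtain ⟨cnt, hcnt⟩ : ∃ cnt : ℝ, cnt =
      (((univ : Finset (Fin L → Fin s × Fin t)).filter
        (fun m => pvG b s t g L m ≡ h [MOD q])).card : ℝ) := ⟨_, rfl⟩
  rw [← hcnt]
  set T : ℕ → ℂ := fun a => ee (-((a : ℝ) * h / q)) * ∑ m : Fin L → Fin s × Fin t,
    ee ((a : ℝ) / q * (pvG b s t g L m : ℝ)) with hT
  have h1 : (cnt : ℂ) = (1 / (q : ℂ)) * ∑ a ∈ range q, T a := by
    have h2 : (cnt : ℂ) = ∑ m : Fin L → Fin s × Fin t,
        (1 / (q : ℂ)) * ∑ a ∈ range q,
          ee ((a : ℝ) * ((((pvG b s t g L m : ℕ) : ℝ) - ((h : ℕ) : ℝ)) / q)) := by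
      rw [hcnt, Finset.card_filter]
      push_cast
      refine sum_congr rfl fun m _ => ?_
      have := orth hq0 (pvG b s t g L m) h
      push_cast at this
      rw [this]
      by_cases hm : pvG b s t g L m ≡ h [MOD q]
      · rw [if_pos hm, if_pos hm]
        push_cast
        field_simp
      · rw [if_neg hm, if_neg hm]
        simp
    rw [h2, ← mul_sum, sum_comm]
    congr 1
    refine sum_congr rfl fun a _ => ?_
    simp only [hT]
    rw [mul_sum]
    refine sum_congr rfl fun m _ => ?_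
    rw [← ls_ee_add]
    congr 1
    field_simp
    ring
  have hT0 : T 0 = ((s : ℂ) * t) ^ L := by
    simp only [hT]
    simp [ls_ee_zero]
  have hTn : ∀ a, ‖T a‖ = ((s : ℝ) * t) ^ L * FG b s t g L L ((a : ℝ) / q) := by
    intro a
    simp only [hT]
    rw [norm_mul, norm_sum_pvG hs ht, ls_norm_ee, one_mul]
  have h3 : (cnt : ℂ) - ((s : ℂ) * t) ^ L / q =
      (1 / (q : ℂ)) * ∑ a ∈ (range q).erase 0, T a := by
    rw [h1, ← Finset.add_sum_erase _ _ (mem_range.2 hq0), hT0]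
    ring
  have h4 : |cnt - ((s : ℝ) * t) ^ L / q| ≤ (1 / (q : ℝ)) * ∑ a ∈ (range q).erase 0,
      ((s : ℝ) * t) ^ L * FG b s t g L L ((a : ℝ) / q) := by
    have h5 : |cnt - ((s : ℝ) * t) ^ L / q| = ‖(cnt : ℂ) - ((s : ℂ) * t) ^ L / q‖ := by
      rw [← Real.norm_eq_abs, ← Complex.norm_real]
      push_cast
      rfl
    rw [h5, h3, norm_mul]
    have h6 : ‖(1 / (q : ℂ))‖ = 1 / (q : ℝ) := by simp
    rw [h6]
    refine mul_le_mul_of_nonneg_left ?_ (by positivity)
    refine (norm_sum_le _ _).trans (le_of_eq ?_)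
    exact sum_congr rfl fun a _ => hTn a
  refine h4.trans (le_of_eq ?_)
  rw [← mul_sum]
  have h7 : ∑ a ∈ (range q).erase 0, FG b s t g L L ((a : ℝ) / q) =
      ∑ d ∈ q.divisors.filter (fun d => 1 < d), UG b s t g L d := by
    have h8 := group hq0 (FG b s t g L L)
    rw [← Finset.add_sum_erase _ _ (mem_range.2 hq0)] at h8
    have h9 : q.divisors.filter (fun d => 1 < d) = q.divisors.erase 1 := by
      ext d
      rw [mem_filter, mem_erase, Nat.mem_divisors]
      constructor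
      · rintro ⟨h1, h2⟩
        exact ⟨by omega, h1⟩
      · rintro ⟨h1, h2⟩
        refine ⟨h2, ?_⟩
        have := Nat.pos_of_dvd_of_pos h2.1 hq0
        omega
    have h10 : (1 : ℕ) ∈ q.divisors := Nat.one_mem_divisors.2 hq0.ne'
    rw [← Finset.add_sum_erase _ _ h10] at h8
    have h11 : ∑ a ∈ (range 1).filter (fun a => a.Coprime 1), FG b s t g L L ((a : ℝ) / (1 : ℕ)) =
        FG b s t g L L (((0 : ℕ) : ℝ) / q) := by
      simp
    rw [h11] at h8
    rw [h9]
    unfold UG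
    linarith
  rw [h7]
  ring

end Pool.Agent.K3h54.PM.G6
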