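import Pool.Agent.K3h54.PC.MainQ
import Pool.Agent.K3h54.PM.G1
import Pool.Agent.K3h54.PM.G2
import Pool.Agent.K3h54.PM.G3
import Pool.Agent.K3h54.PM.G4
import Pool.Agent.K3h54.PM.G5
import Pool.Agent.K3h54.PM.G6
import Pool.Agent.K3h54.PM.G7
import Pool.Agent.K3h54.PM.G10
import Pool.Agent.K3h54.PM.FING

/-!
# Clusters of almost prime palindromes, middle digits
-/

set_option autoImplicit false

namespace Pool.Agent.K3h54.PM

theorem fin : StFinM :=
  FING.main Pool.Agent.K3h54.PC.mtwFin G1.main G3.main (G4.main G2.main) (G5.main G2.main) G6.main G7.main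
    G8.main G9.main G10.main

end Pool.Agent.K3h54.PM
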